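import Pool.Agent.H51.F3.Defs
import Pool.Agent.H51.PF.Tyt
import Pool.Agent.H51.TC.Def

/-!
# H86-HT-DEF: theorem HT (MP_b39724_nt, think 1781): definitions

`G` a finite group, `N = O^p(G)`, `P = G / N`, `H` a quotient of `G` by a normal subgroup containing the given classes, `G` embeds into `P × H`.
* `GY p N G P H`: `pr : G → P`, `ph : G → H` surjective, together injective; `ker pr` is contained in every normal subgroup `M` with `G / M` a `p`-group; `cl` the classes, in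
  `ker ph`; `cP` their images in `P`.
* `GY.T`: the subgroup `{g : pr g ∈ Tc cP, ph g = 1}` of `G`.
* `PPosT p M c`: positivity for `SYT` (typed). `PLy p M c`: the three P-level statements used here.
* `RBt K Ω H θ`: at most `C Y^(θ+ε)` homomorphisms of finite type to `H` with product of the norms of the ramified primes at most `Y` (`RB` of H51/TC/Def is `θ = 1`). `RBLt D L H θ`: the same outside `S0`.
* `UZ B a r A E = B^(1/a) ∏_(v ∈ A) nm v^(-r/a) ∏_(v ∈ E ∖ A) nm v^(-(co a v)/a)`: the bound for the norm of the typed primes, if the primes in `A` have index at least `r`, those in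
  `E ∖ A` at least `co a v`.
-/

set_option autoImplicit false

open scoped NumberField
open IsDedekindDomain H38.ML Filter Topology
open scoped Classical

noncomputable section

namespace H86.HT

open H63.MA H38.BB H38.BG H57.PC H57.BRA H63.BU H77.PC3 H57.CC H38.AS H77.S0T H77.FLD H77.PLF H51.PF
  H51.F3

section grp

/-- a group with its projections; `ker pr` is the smallest normal subgroup with quotient a `p`-group -/
structure GY (p N : ℕ) (G P H : Type) [Group G] [Group P] [Group H] where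
  pr : G →* P
  prs : Function.Surjective pr
  ph : G →* H
  phs : Function.Surjective ph
  inj : ∀ x y, pr x = pr y → ph x = ph y → x = y
  mn : ∀ M : Subgroup G, M.Normal → (∀ g : G, ∃ k : ℕ, g ^ p ^ k ∈ M) → pr.ker ≤ M
  cl : CL p N G
  cP : CL p N P
  hcl : ∀ i, pr (cl.g i) = cP.g i
  hph : ∀ i, ph (cl.g i) = 1

/-- the elements of `ker ph` with image in `Tc cP` -/
def GY.T {p N : ℕ} {G P H : Type} [Group G] [Group P] [Group H] (Q : GY p N G P H) : Subgroup G :=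
  (Tc Q.cP).comap Q.pr ⊓ Q.ph.ker

end grp

section plev

/-- positivity for `SYT` -/
def PPosT (p M : ℕ) {N : ℕ} {P : Type} [Group P] (c : CL p N P) : Prop :=
  ∀ (K : IntermediateField ℚ QBar) [NumberField K] (ζ : K) (_ : IsPrimitiveRoot ζ p) (z : K)
    (_ : IsPrimitiveRoot z (p ^ M)) (D : RD K p ζ) (L : LDs D.toRD0 QBar) (Q : DP K QBar)
    (_ : LQ L Q) (φ₀ : Gal(QBar/K) →* P) (_ : H38.ML.FT φ₀) (_ : Function.Surjective φ₀)
    (_ : ∀ v, v ∉ D.S0 → ∀ τ ∈ inr L v, φ₀ τ = 1),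
    ∃ c₀ : ℝ, 0 < c₀ ∧ ∀ᶠ Y : ℝ in atTop,
      c₀ * (Y * Real.log Y ^ (N - 1)) ≤ ((SYT L Q c (Tc c) φ₀ Y).ncard : ℝ)

/-- the P-level statements -/
def PLy (p M : ℕ) {N : ℕ} {P : Type} [Group P] (c : CL p N P) : Prop :=
  PLimT p M c (Tc c) ∧ PUb p M c ∧ PPosT p M c

end plev

section hyp

/-- at most `C Y^(θ+ε)` homomorphisms with product of the norms of the ramified primes `≤ Y` -/
def RBt (K : Type) [Field K] [NumberField K] (Ω : Type) [Field Ω] [Algebra K Ω] (H : Type)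
    [Group H] (θ : ℝ) : Prop :=
  ∀ (Q : DP K Ω) (ε : ℝ), 0 < ε → ∃ C : ℝ, ∀ Y : ℝ, 1 ≤ Y → ∀ Rs : Finset (Gal(Ω/K) →* H),
    (∀ φ ∈ Rs, H38.ML.FT φ ∧ ∀ T : Finset (Pl K),
      (∀ v ∈ T, ∃ τ ∈ (Q.P v).inertia Gal(Ω/K), φ τ ≠ 1) → ∏ v ∈ T, (nm v : ℝ) ≤ Y) →
    (Rs.card : ℝ) ≤ C * Y ^ (θ + ε)

/-- the same outside `S0` -/
def RBLt {K : Type} [Field K] [NumberField K] {Ω : Type} [Field Ω] [Algebra K Ω] {p : ℕ} {ζ : K}
    (D : RD0 K p ζ) (L : LDs D Ω) (H : Type) [Group H] (θ : ℝ) : Prop :=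
  ∀ ε : ℝ, 0 < ε → ∃ C : ℝ, ∀ Y : ℝ, 1 ≤ Y → ∀ Rs : Finset (Gal(Ω/K) →* H),
    (∀ φ ∈ Rs, H38.ML.FT φ ∧ ∀ T : Finset (Pl K), (∀ v ∈ T, Rm L φ v) → nr T ≤ Y) →
    (Rs.card : ℝ) ≤ C * Y ^ (θ + ε)

/-- the bound for the norm of the typed primes -/
def UZ {K : Type} [Field K] [NumberField K] (B : ℝ) (a r : ℕ) (A E : Finset (Pl K)) : ℝ :=
  B ^ (1 / (a : ℝ)) * ((∏ v ∈ A, (nm v : ℝ) ^ (-((r : ℝ) / (a : ℝ)))) *
    ∏ v ∈ E \ A, (nm v : ℝ) ^ (-((co a v : ℝ) / (a : ℝ))))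

end hyp

end H86.HT
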