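import Pool.Agent.H77.UX.TRG
import Pool.Agent.H51.PF.Fra

/-!
# H86-HT-GTR: the groups (MP_b39724_nt, think 1781)

`T` = the subgroup generated by the elements of least index, `T ∩ γ_k(G) = 1` for some `k`.
* `tt_normal`: `T` is normal. `trgy`: all elements of least index have the same order: as `trg` (H77/UX/TRG.lean), with `dvd_Fy` for elements commuting with the elements of `q`-power order.
* `tt_pgroup`: `T` is a `p`-group, `p` the order of the elements of least index. `n0_ex`: a normal subgroup of `p`-power index with trivial intersection with `T`.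
-/

set_option autoImplicit false

open scoped Classical

noncomputable section

namespace H86.HT

open H38.ML H77.UX H51.PF

/-- the subgroup generated by the elements of least index -/
abbrev TT {n : ℕ} (G : Subgroup (Equiv.Perm (Fin n))) : Subgroup G := Subgroup.closure (Li G)

section nil

variable {G : Type} [Group G]

theorem nil_quot (k : ℕ) : Group.IsNilpotent (G ⧸ (⊤ : Subgroup G).lowerCentralSeries k) := by
  rw [Subgroup.nilpotent_iff_lowerCentralSeries]
  refine ⟨k, ?_⟩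
  have h1 : (⊤ : Subgroup (G ⧸ (⊤ : Subgroup G).lowerCentralSeries k)) =
      (⊤ : Subgroup G).map (QuotientGroup.mk' ((⊤ : Subgroup G).lowerCentralSeries k)) := by
    rw [← MonoidHom.range_eq_map]
    exact (MonoidHom.range_eq_top.2 (QuotientGroup.mk'_surjective _)).symm
  rw [h1, ← Subgroup.map_lowerCentralSeries, QuotientGroup.map_mk'_self]

/-- elements of a normal subgroup `T` with `T ∩ γ_k = 1` commute with the elements of `q`-power order, `q` prime to their order -/
theorem nil_cmm [Finite G] (T : Subgroup G) (hT : T.Normal) (k : ℕ)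
    (hk : T ⊓ (⊤ : Subgroup G).lowerCentralSeries k = ⊥) {q : ℕ} (hq : q.Prime) (s g : G)
    (hs : ∃ j : ℕ, s ^ q ^ j = 1) (hg : g ∈ T) (hqg : ¬ q ∣ orderOf g) : s * g = g * s := by
  have hnil := nil_quot (G := G) k
  obtain ⟨π, hπ⟩ : ∃ π : G →* G ⧸ (⊤ : Subgroup G).lowerCentralSeries k,
      π = QuotientGroup.mk' _ := ⟨_, rfl⟩
  have h1 : π s * π g = π g * π s := by
    refine nil_comm hnil hq ?_ fun hd => hqg (hd.trans (orderOf_map_dvd π g))
    obtain ⟨j, hj⟩ := hs
    exact ⟨j, by rw [← map_pow, hj, map_one]⟩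
  have h2 : s * g * s⁻¹ * g⁻¹ ∈ (⊤ : Subgroup G).lowerCentralSeries k := by
    have h3 : π (s * g * s⁻¹ * g⁻¹) = 1 := by
      rw [map_mul, map_mul, map_mul, map_inv, map_inv, h1, mul_inv_cancel_right, mul_inv_cancel]
    rw [hπ] at h3
    exact (QuotientGroup.eq_one_iff _).1 h3
  have h3 : s * g * s⁻¹ * g⁻¹ ∈ T := T.mul_mem (hT.conj_mem g hg s) (T.inv_mem hg)
  have h4 : s * g * s⁻¹ * g⁻¹ ∈ T ⊓ (⊤ : Subgroup G).lowerCentralSeries k := ⟨h3, h2⟩
  rw [hk, Subgroup.mem_bot] at h4
  have h5 : s * g * s⁻¹ * g⁻¹ * g * s = g * s := by rw [h4, one_mul]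
  rw [← h5]
  group

end nil

section perm

variable {n : ℕ} {G : Subgroup (Equiv.Perm (Fin n))}

theorem tt_normal (hn : 2 ≤ n) (G : Subgroup (Equiv.Perm (Fin n)))
    (hG : MulAction.IsPretransitive G (Fin n)) : (TT G).Normal := by
  obtain ⟨-, -, -, hcj, -⟩ := H38.BG.pidx_pos hn G hG
  have h1 : Li G = Group.conjugatesOfSet (Li G) := by
    refine Set.Subset.antisymm Group.subset_conjugatesOfSet fun x hx => ?_
    obtain ⟨g, hg, hgx⟩ := Group.mem_conjugatesOfSet_iff.1 hx
    obtain ⟨c, rfl⟩ := isConj_iff.1 hgx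
    refine ⟨fun h => hg.1 ?_, hcj g c hg.1 hg.2⟩
    have h2 : c⁻¹ * (c * g * c⁻¹) * c = 1 := by rw [h, mul_one, inv_mul_cancel]
    rw [← h2]
    group
  have h2 : TT G = Subgroup.normalClosure (Li G) := by
    unfold Subgroup.normalClosure
    rw [← h1]
  rw [h2]
  exact Subgroup.normalClosure_normal

/-- the `q`-part of `n` divides the number of fixed points of an element commuting with the elements of `q`-power order -/
theorem dvd_Fy (hn : n ≠ 0) (hG : MulAction.IsPretransitive G (Fin n))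
    {q : ℕ} (hq : q.Prime) (z : G) (hz : ∀ s : G, (∃ j : ℕ, s ^ q ^ j = 1) → s * z = z * s) :
    q ^ n.factorization q ∣ Fx (z : Equiv.Perm (Fin n)) := by
  have : Fact q.Prime := ⟨hq⟩
  obtain ⟨S⟩ : Nonempty (Sylow q G) := inferInstance
  have hcm : ∀ s : S, ∀ x : Fin n, ((s : G) : Equiv.Perm (Fin n)) ((z : Equiv.Perm (Fin n)) x) =
      (z : Equiv.Perm (Fin n)) (((s : G) : Equiv.Perm (Fin n)) x) := by
    intro s x
    obtain ⟨k, hk⟩ := S.isPGroup' s
    have hk' : (s : G) ^ q ^ k = 1 := by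
      rw [← Subgroup.coe_pow, hk]
      rfl
    have h1 := hz s ⟨k, hk'⟩
    have h2 : (((s : G) * z : G) : Equiv.Perm (Fin n)) x = ((z * (s : G) : G) : Equiv.Perm (Fin n)) x := by
      rw [h1]
    exact h2
  let Y : Type := {x : Fin n // (z : Equiv.Perm (Fin n)) x = x}
  let act : MulAction S Y :=
    { smul := fun s y => ⟨((s : G) : Equiv.Perm (Fin n)) y.1, by
        have h := hcm s y.1
        rw [y.2] at h
        exact h.symm⟩
      one_smul := fun y => rfl
      mul_smul := fun s t y => rfl }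
  have : Fintype (MulAction.orbitRel.Quotient S Y) := Fintype.ofFinite _
  have e := MulAction.selfEquivSigmaOrbitsQuotientStabilizer S Y
  have h1 := Nat.card_congr e
  have hF : Fx (z : Equiv.Perm (Fin n)) = Nat.card Y := rfl
  rw [hF, h1, Nat.card_sigma]
  refine Finset.dvd_sum fun ω _ => ?_
  obtain ⟨y, hy⟩ : ∃ y : Y, y = ω.out := ⟨_, rfl⟩
  rw [← hy]
  -- the stabiliser of `y` in `S` embeds in the stabiliser of the point
  set H := MulAction.stabilizer G y.1 with hH
  have hidx : H.index = n := by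
    rw [hH, MulAction.index_stabilizer_of_transitive G y.1, Nat.card_fin]
  have hcardG : Nat.card H * n = Nat.card G := by
    have h0 := H.card_mul_index
    rwa [hidx] at h0
  have hH0 : Nat.card H ≠ 0 := Nat.card_pos.ne'
  have hG0 : Nat.card G ≠ 0 := Nat.card_pos.ne'
  have hfac : (Nat.card H).factorization q + n.factorization q = (Nat.card G).factorization q := by
    rw [← hcardG, Nat.factorization_mul hH0 hn, Finsupp.add_apply]
  have hS : Nat.card S = q ^ (Nat.card G).factorization q := S.card_eq_multiplicity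
  let K : Subgroup S := MulAction.stabilizer S y
  have hKp : IsPGroup q K := S.isPGroup'.to_subgroup K
  obtain ⟨b, hb⟩ := IsPGroup.iff_card.1 hKp
  have hKH : Nat.card K ∣ Nat.card H := by
    let f : K →* H :=
      { toFun := fun k => ⟨((k : S) : G), by
          rw [hH, MulAction.mem_stabilizer_iff]
          have h := k.2
          have h2 := congrArg Subtype.val (MulAction.mem_stabilizer_iff.1 h)
          exact h2⟩
        map_one' := rfl
        map_mul' := fun _ _ => rfl }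
    refine Subgroup.card_dvd_of_injective f ?_
    intro a a' h
    apply Subtype.ext
    apply Subtype.ext
    exact congrArg (fun w : H => (w : G)) h
  have hb1 : b ≤ (Nat.card H).factorization q := by
    rw [hb] at hKH
    exact (hq.pow_dvd_iff_le_factorization hH0).1 hKH
  have h3 : Nat.card (S ⧸ K) * Nat.card K = Nat.card S := (Subgroup.card_eq_card_quotient_mul_card_subgroup K).symm
  have h4 : Nat.card (S ⧸ K) * q ^ b = q ^ (n.factorization q) * q ^ ((Nat.card H).factorization q) := by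
    rw [← hb, h3, hS, ← hfac, pow_add, mul_comm]
  have h5 : q ^ (n.factorization q) * q ^ b ∣ Nat.card (S ⧸ K) * q ^ b := by
    rw [h4]
    exact Nat.mul_dvd_mul_left _ (pow_dvd_pow q hb1)
  exact Nat.dvd_of_mul_dvd_mul_right (pow_pos hq.pos b) h5

/-- the elements of least index have the same order -/
theorem trgy (hn : 2 ≤ n) (G : Subgroup (Equiv.Perm (Fin n)))
    (hG : MulAction.IsPretransitive G (Fin n)) (k : ℕ)
    (hk : TT G ⊓ (⊤ : Subgroup G).lowerCentralSeries k = ⊥) (g g' : G) (hg0 : g ∈ Li G)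
    (hg0' : g' ∈ Li G) : orderOf g = orderOf g' := by
  have hTn := tt_normal hn G hG
  by_contra hne
  obtain ⟨hg, h⟩ := hg0
  obtain ⟨hg', h'⟩ := hg0'
  have hcm : ∀ (q : ℕ) (_ : q.Prime) (z : G), z ∈ Li G → ¬ q ∣ orderOf z →
      ∀ s : G, (∃ j : ℕ, s ^ q ^ j = 1) → s * z = z * s := fun q hq z hz hqz s hs =>
    nil_cmm (TT G) hTn k hk hq s z hs (Subgroup.subset_closure hz) hqz
  have hl := prime_of_least G g hg h
  have hl' := prime_of_least G g' hg' h'
  have ho : orderOf (g : Equiv.Perm (Fin n)) = orderOf g := Subgroup.orderOf_coe g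
  have ho' : orderOf (g' : Equiv.Perm (Fin n)) = orderOf g' := Subgroup.orderOf_coe g'
  have i1 := ind_prime (g : Equiv.Perm (Fin n)) (by rw [ho]; exact hl)
  have i2 := ind_prime (g' : Equiv.Perm (Fin n)) (by rw [ho']; exact hl')
  rw [ho] at i1
  rw [ho'] at i2
  have hn0 : n ≠ 0 := by omega
  have hgL : g ∈ Li G := ⟨hg, h⟩
  have hgL' : g' ∈ Li G := ⟨hg', h'⟩
  change ind (g : Equiv.Perm (Fin n)) = indG G at h
  change ind (g' : Equiv.Perm (Fin n)) = indG G at h'
  set l := orderOf g with hldef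
  set l' := orderOf g' with hldef'
  set I := indG G with hI
  rw [h] at i1
  rw [h'] at i2
  set m := n - Fx (g : Equiv.Perm (Fin n)) with hm
  set v := n.factorization l with hv
  have hnl : l ^ v ∣ n := Nat.ordProj_dvd n l
  have hI0 : 0 < I := by
    rw [← h]
    exact ind_pos _ (fun h => hg (Subtype.ext h))
  -- `l ^ v ∣ I`
  have hll' : ¬ l ∣ l' := fun hd => hne ((Nat.prime_dvd_prime_iff_eq hl hl').1 hd)
  have d1 : l ^ v ∣ Fx (g' : Equiv.Perm (Fin n)) :=
    dvd_Fy hn0 hG hl g' (hcm l hl g' hgL' hll')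
  have d2 : l ^ v ∣ l' * I := by
    rw [i2]
    exact Dvd.dvd.mul_left (Nat.dvd_sub hnl d1) _
  have d3 : l ^ v ∣ I :=
    (Nat.Coprime.pow_left v ((Nat.Prime.coprime_iff_not_dvd hl).2 hll')).dvd_of_dvd_mul_left d2
  -- `l ^ (v + 1) ∣ m`
  have hl1 : 1 < l := hl.one_lt
  have d4 : l ^ (v + 1) ∣ m := by
    have h1 : l ^ (v + 1) ∣ (l - 1) * m := by
      rw [← i1, pow_succ, mul_comm]
      exact Nat.mul_dvd_mul_left l d3
    have h2 : ¬ l ∣ l - 1 := fun hd => by
      have := Nat.le_of_dvd (by omega) hd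
      omega
    exact (Nat.Coprime.pow_left (v + 1) ((Nat.Prime.coprime_iff_not_dvd hl).2 h2)).dvd_of_dvd_mul_left h1
  have hm0 : m ≠ 0 := by
    intro h0
    rw [h0, mul_zero] at i1
    rcases Nat.mul_eq_zero.1 i1 with h1 | h1
    · omega
    · omega
  have hln : l * n ∣ m := by
    rw [← Nat.factorization_le_iff_dvd (by positivity) hm0]
    intro q
    by_cases hq : q.Prime
    · rw [Nat.factorization_mul (by omega) hn0, Finsupp.add_apply]
      by_cases hql : q = l
      · rw [hql, hl.factorization_self, ← hv]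
        have := (hl.pow_dvd_iff_le_factorization hm0).1 d4
        omega
      · have h1 : l.factorization q = 0 := by
          rw [Nat.Prime.factorization hl, Finsupp.single_apply, if_neg (Ne.symm hql)]
        rw [h1, zero_add]
        have h2 : q ^ n.factorization q ∣ m := by
          rw [hm]
          refine Nat.dvd_sub (Nat.ordProj_dvd n q) (dvd_Fy hn0 hG hq g (hcm q hq g hgL ?_))
          rw [← hldef]
          exact fun hd => hql ((Nat.prime_dvd_prime_iff_eq hq hl).1 hd)
        exact (hq.pow_dvd_iff_le_factorization hm0).1 h2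
    · rw [Nat.factorization_eq_zero_of_not_prime _ hq]
      exact Nat.zero_le _
  have h1 := Nat.le_of_dvd (Nat.pos_of_ne_zero hm0) hln
  have h2 : m ≤ n := Nat.sub_le _ _
  nlinarith

/-- `T` is a `p`-group -/
theorem tt_pgroup (hn : 2 ≤ n) (G : Subgroup (Equiv.Perm (Fin n)))
    (hG : MulAction.IsPretransitive G (Fin n)) (k : ℕ)
    (hk : TT G ⊓ (⊤ : Subgroup G).lowerCentralSeries k = ⊥) {p : ℕ} (hp : p.Prime)
    (hL : ∀ h ∈ Li G, h ^ p = 1) : IsPGroup p (TT G) := by
  have : Fact p.Prime := ⟨hp⟩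
  have hnil := nil_quot (G := G) k
  obtain ⟨π, hπ⟩ : ∃ π : G →* G ⧸ (⊤ : Subgroup G).lowerCentralSeries k,
      π = QuotientGroup.mk' _ := ⟨_, rfl⟩
  obtain ⟨S⟩ : Nonempty (Sylow p (G ⧸ (⊤ : Subgroup G).lowerCentralSeries k)) := inferInstance
  have h1 : TT G ≤ (S : Subgroup (G ⧸ (⊤ : Subgroup G).lowerCentralSeries k)).comap π := by
    rw [Subgroup.closure_le]
    intro h hh
    exact nil_mem hnil hp S ⟨1, by rw [pow_one, ← map_pow, hL h hh, map_one]⟩
  rintro ⟨x, hx⟩
  obtain ⟨j, hj⟩ := S.isPGroup' ⟨π x, h1 hx⟩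
  refine ⟨j, Subtype.ext ?_⟩
  have h2 : π (x ^ p ^ j) = 1 := by
    rw [map_pow]
    exact congrArg Subtype.val hj
  have h3 : x ^ p ^ j ∈ TT G ⊓ (⊤ : Subgroup G).lowerCentralSeries k := by
    refine ⟨(TT G).pow_mem hx _, ?_⟩
    rw [hπ] at h2
    exact (QuotientGroup.eq_one_iff _).1 h2
  rw [hk, Subgroup.mem_bot] at h3
  exact h3

/-- a normal subgroup of `p`-power index with trivial intersection with `T` -/
theorem n0_ex (hn : 2 ≤ n) (G : Subgroup (Equiv.Perm (Fin n)))
    (hG : MulAction.IsPretransitive G (Fin n)) (k : ℕ)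
    (hk : TT G ⊓ (⊤ : Subgroup G).lowerCentralSeries k = ⊥) {p : ℕ} (hp : p.Prime)
    (hL : ∀ h ∈ Li G, h ^ p = 1) : ∃ N₀ : Subgroup G, N₀.Normal ∧
      (∀ x : G, ∃ j : ℕ, x ^ p ^ j ∈ N₀) ∧ N₀ ⊓ TT G = ⊥ := by
  have : Fact p.Prime := ⟨hp⟩
  have hnil := nil_quot (G := G) k
  obtain ⟨π, hπ⟩ : ∃ π : G →* G ⧸ (⊤ : Subgroup G).lowerCentralSeries k,
      π = QuotientGroup.mk' _ := ⟨_, rfl⟩
  have hker : ∀ x : G, π x = 1 → x ∈ (⊤ : Subgroup G).lowerCentralSeries k := by
    intro x hx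
    rw [hπ] at hx
    exact (QuotientGroup.eq_one_iff _).1 hx
  have hinj : ∀ x ∈ TT G, π x = 1 → x = 1 := by
    intro x hx h
    have h3 : x ∈ TT G ⊓ (⊤ : Subgroup G).lowerCentralSeries k := ⟨hx, hker x h⟩
    rwa [hk, Subgroup.mem_bot] at h3
  obtain ⟨-, ⟨g₀, hg₀, hg₀'⟩, -, -, -⟩ := H38.BG.pidx_pos hn G hG
  have hgL : g₀ ∈ Li G := ⟨hg₀, hg₀'⟩
  have hpd : p ∣ Nat.card (G ⧸ (⊤ : Subgroup G).lowerCentralSeries k) := by
    have h3 : orderOf (π g₀) = p := orderOf_eq_prime (by rw [← map_pow, hL g₀ hgL, map_one])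
      fun h => hg₀ (hinj g₀ (Subgroup.subset_closure hgL) h)
    rw [← h3]
    exact orderOf_dvd_natCard _
  obtain ⟨S⟩ : Nonempty (Sylow p (G ⧸ (⊤ : Subgroup G).lowerCentralSeries k)) := inferInstance
  obtain ⟨f, -, hf⟩ := nil_split hnil hp hpd S
  refine ⟨(f.comp π).ker, inferInstance, fun x => ?_, ?_⟩
  · obtain ⟨j, hj⟩ := S.isPGroup' (f (π x))
    refine ⟨j, ?_⟩
    rw [MonoidHom.mem_ker, MonoidHom.comp_apply, map_pow, map_pow, hj]
  · rw [eq_bot_iff]
    rintro x ⟨hx1, hx2⟩
    rw [Subgroup.mem_bot]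
    refine hinj x hx2 ?_
    have h1 := hf (π x) hx1
    obtain ⟨j, hj⟩ := tt_pgroup hn G hG k hk hp hL ⟨x, hx2⟩
    have h2 : x ^ p ^ j = 1 := congrArg Subtype.val hj
    have h3 : orderOf (π x) ∣ p ^ j := orderOf_dvd_of_pow_eq_one (by rw [← map_pow, h2, map_one])
    obtain ⟨i, -, hi⟩ := (Nat.dvd_prime_pow hp).1 h3
    rcases Nat.eq_zero_or_pos i with h4 | h4
    · rw [h4, pow_zero] at hi
      exact orderOf_eq_one_iff.1 hi
    · exact absurd (hi ▸ dvd_pow_self p h4.ne') h1

end perm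

end H86.HT
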