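import Pool.Agent.H86.HT.Def
import Pool.Agent.H77.PC3.CLd

/-!
# H86-HT-CNY: the norm of the typed primes (MP_b39724_nt, think 1781)

As `ccnt_nr` (H77/PC3/CLd.lean) with `UZ` in the place of `UY`: the primes in `A ⊆ E` have index at least `r`.
-/

set_option autoImplicit false

open scoped NumberField
open IsDedekindDomain
open scoped Classical

noncomputable section

namespace H86.HT

open H63.MA H38.BB H38.BG H38.AS H63.BU H77.PC3 H57.PC

variable {K : Type} [Field K] [NumberField K] {Ω : Type} [Field Ω] [Algebra K Ω]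
  [IsAlgClosure K Ω] {p N₀ : ℕ} {ζ : K}

theorem uz_eq {K : Type} [Field K] [NumberField K] (B : ℝ) (hB : 0 ≤ B) (a r : ℕ) (ha : 0 < a)
    (A E : Finset (Pl K)) :
    UZ B a r A E = (B / ((∏ v ∈ A, (nm v : ℝ) ^ r) * ∏ v ∈ E \ A, (nm v : ℝ) ^ co a v)) ^
      (1 / (a : ℝ)) := by
  have haR : (0 : ℝ) < (a : ℝ) := by exact_mod_cast ha
  have h0 : ∀ v : Pl K, (0 : ℝ) < (nm v : ℝ) := fun v => by
    exact_mod_cast (zero_lt_one.trans (one_lt_nm v))
  have h1 : ∀ (F : Finset (Pl K)) (c : Pl K → ℕ),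
      ∏ v ∈ F, (nm v : ℝ) ^ (-((c v : ℝ) / (a : ℝ))) =
      (∏ v ∈ F, (nm v : ℝ) ^ c v) ^ (-(1 / (a : ℝ))) := by
    intro F c
    rw [← Real.finsetProd_rpow F _ (fun v _ => by have := h0 v; positivity)]
    refine Finset.prod_congr rfl fun v _ => ?_
    rw [← Real.rpow_natCast, ← Real.rpow_mul (h0 v).le]
    congr 1
    field_simp
  have hQ : ∀ (F : Finset (Pl K)) (c : Pl K → ℕ), 0 < ∏ v ∈ F, (nm v : ℝ) ^ c v := fun F c =>
    Finset.prod_pos fun v _ => by have := h0 v; positivity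
  have hQ1 := hQ A fun _ => r
  have hQ2 := hQ (E \ A) (co a)
  unfold UZ
  rw [h1 A fun _ => r, h1 (E \ A) (co a), ← Real.mul_rpow hQ1.le hQ2.le,
    Real.div_rpow hB (mul_pos hQ1 hQ2).le, Real.rpow_neg (mul_pos hQ1 hQ2).le]
  rfl

theorem cny_nr (hp : p.Prime) (hζ : IsPrimitiveRoot ζ p) (D : RD0 K p ζ) (L : LDs D Ω)
    {G : Type} [Group G] [Finite G] (Dg : CL p N₀ G)
    (hS : ∀ v : Pl K, ((Nat.card G : ℕ) : 𝓞 K) ∈ v.asIdeal → v ∈ D.S0) (a r : ℕ) (ha : 0 < a)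
    (har : a ≤ r) (ix : Subgroup G → ℕ) (h1 : ∀ H, H ≠ ⊥ → a ≤ ix H)
    (h2 : ∀ g : G, g ≠ 1 → ix (Subgroup.zpowers g) ≤ a → ∃ i, IsConj g (Dg.g i))
    (φ : Gal(Ω/K) →* G) (hφ : H38.ML.FT φ) (B : ℝ)
    (hB : ∀ T : Finset (Pl K), (∀ v ∈ T, v ∉ D.S0) →
      ∏ v ∈ T, (nm v : ℝ) ^ ix ((inr L v).map φ) ≤ B)
    (f : Fin N₀ → Finset (Pl K)) (A E : Finset (Pl K)) (hf : ∀ i v, v ∈ f i ↔ TyC Dg L φ i v)
    (hE : ∀ v, v ∈ E ↔ Rm L φ v ∧ ∀ i, ¬ TyC Dg L φ i v) (hAE : A ⊆ E)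
    (hA : ∀ v ∈ A, r ≤ ix ((inr L v).map φ)) :
    ∏ i, nr (f i) ≤ UZ B a r A E ∧ Dj f ∧ (∀ i, Disjoint (f i) E) ∧ 1 ≤ UZ B a r A E ∧
      nr E ≤ B := by
  have h0 : ∀ v : Pl K, (1 : ℝ) ≤ (nm v : ℝ) := fun v => by
    exact_mod_cast (one_lt_nm v).le
  have haR : (0 : ℝ) < (a : ℝ) := by exact_mod_cast ha
  have hco : ∀ v : Pl K, a ≤ co a v := by
    intro v
    unfold co
    split_ifs
    · exact Nat.le_succ a
    · exact le_rfl
  have hdj : Dj f := by
    intro i j hij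
    rw [Finset.disjoint_left]
    intro v hv hv'
    exact hij (clead_uni L Dg φ i j v ((hf i v).1 hv) ((hf j v).1 hv'))
  have hdE : ∀ i, Disjoint (f i) E := by
    intro i
    rw [Finset.disjoint_left]
    intro v hv hv'
    exact ((hE v).1 hv').2 i ((hf i v).1 hv)
  have hEi : Disjoint E (Finset.univ.biUnion f) := by
    rw [Finset.disjoint_biUnion_right]
    exact fun i _ => (hdE i).symm
  have hT : ∀ v ∈ E ∪ Finset.univ.biUnion f, v ∉ D.S0 := by
    intro v hv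
    rcases Finset.mem_union.1 hv with h | h
    · exact ((hE v).1 h).1.1
    · obtain ⟨i, -, hi⟩ := Finset.mem_biUnion.1 h
      exact ((hf i v).1 hi).1.1
  have hprod := hB _ hT
  rw [Finset.prod_union hEi, Finset.prod_biUnion (fun i _ j _ hij => hdj i j hij)] at hprod
  obtain ⟨Q, hQ⟩ : ∃ Q : ℝ, Q = (∏ v ∈ A, (nm v : ℝ) ^ r) * ∏ v ∈ E \ A, (nm v : ℝ) ^ co a v :=
    ⟨_, rfl⟩
  have hQ1 : Q ≤ ∏ v ∈ E, (nm v : ℝ) ^ ix ((inr L v).map φ) := by
    rw [hQ, ← Finset.prod_sdiff hAE, mul_comm]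
    refine mul_le_mul ?_ ?_ (Finset.prod_nonneg fun v _ => by have := h0 v; positivity)
      (Finset.prod_nonneg fun v _ => by have := h0 v; positivity)
    · refine Finset.prod_le_prod (fun v _ => by have := h0 v; positivity) fun v hv => ?_
      have hv' := (hE v).1 (Finset.mem_sdiff.1 hv).1
      rcases clead hp hζ L Dg hS a ix h1 h2 φ hφ v hv'.1 with ⟨i, hi⟩ | h
      · exact absurd hi (hv'.2 i)
      · exact pow_le_pow_right₀ (h0 v) h
    · refine Finset.prod_le_prod (fun v _ => by have := h0 v; positivity) fun v hv => ?_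
      exact pow_le_pow_right₀ (h0 v) (hA v hv)
  have hP1 : (∏ i, nr (f i)) ^ a ≤ ∏ i, ∏ v ∈ f i, (nm v : ℝ) ^ ix ((inr L v).map φ) := by
    rw [← Finset.prod_pow]
    refine Finset.prod_le_prod (fun i _ => pow_nonneg (by linarith [one_le_nr (f i)]) _)
      fun i _ => ?_
    unfold nr
    rw [← Finset.prod_pow]
    refine Finset.prod_le_prod (fun v _ => by have := h0 v; positivity) fun v hv => ?_
    exact pow_le_pow_right₀ (h0 v) (h1 _ (clead_ty L Dg φ i v ((hf i v).1 hv)).2)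
  obtain ⟨P, hP⟩ : ∃ P : ℝ, P = ∏ i, nr (f i) := ⟨_, rfl⟩
  have hPone : 1 ≤ P := by
    rw [hP]
    exact atupa_prod_one f Finset.univ
  have hnrQ : nr E ≤ Q := by
    rw [hQ]
    unfold nr
    rw [← Finset.prod_sdiff hAE, mul_comm]
    refine mul_le_mul ?_ ?_ (Finset.prod_nonneg fun v _ => by have := h0 v; positivity)
      (Finset.prod_nonneg fun v _ => by have := h0 v; positivity)
    · refine Finset.prod_le_prod (fun v _ => by have := h0 v; positivity) fun v _ => ?_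
      calc (nm v : ℝ) = (nm v : ℝ) ^ 1 := (pow_one _).symm
        _ ≤ _ := pow_le_pow_right₀ (h0 v) (by omega)
    · refine Finset.prod_le_prod (fun v _ => by have := h0 v; positivity) fun v _ => ?_
      calc (nm v : ℝ) = (nm v : ℝ) ^ 1 := (pow_one _).symm
        _ ≤ _ := pow_le_pow_right₀ (h0 v) (by have := hco v; omega)
  have hQone : 1 ≤ Q := (one_le_nr E).trans hnrQ
  have hQP : Q * P ^ a ≤ B := by
    refine le_trans ?_ hprod
    rw [hP]
    refine mul_le_mul hQ1 hP1 (by rw [← hP]; positivity) ?_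
    exact Finset.prod_nonneg fun v _ => by have := h0 v; positivity
  have hPa : 1 ≤ P ^ a := one_le_pow₀ hPone
  have hQB : Q ≤ B := by nlinarith
  have hB0 : 0 < B := by linarith
  have hUY : UZ B a r A E = (B / Q) ^ (1 / (a : ℝ)) := by
    rw [hQ]
    exact uz_eq B hB0.le a r ha A E
  have hPU : P ≤ UZ B a r A E := by
    rw [hUY]
    have h3 : P ^ a ≤ B / Q := by
      rw [le_div_iff₀ (by linarith)]
      linarith
    have h4 : P = (P ^ a) ^ (1 / (a : ℝ)) := by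
      rw [one_div, Real.pow_rpow_inv_natCast (by linarith) ha.ne']
    rw [h4]
    exact Real.rpow_le_rpow (by positivity) h3 (by positivity)
  refine ⟨?_, hdj, hdE, hPone.trans hPU, hnrQ.trans hQB⟩
  rw [← hP]
  exact hPU

theorem uz_le {K : Type} [Field K] [NumberField K] (B : ℝ) (hB : 1 ≤ B) (a r : ℕ)
    (A E : Finset (Pl K)) : 0 ≤ UZ B a r A E ∧ UZ B a r A E ≤ B ^ (1 / (a : ℝ)) := by
  have hB0 : 0 ≤ B ^ (1 / (a : ℝ)) := Real.rpow_nonneg (by linarith) _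
  have hf0 : ∀ (F : Finset (Pl K)) (c : Pl K → ℕ), ∀ v ∈ F,
      0 ≤ (nm v : ℝ) ^ (-((c v : ℝ) / (a : ℝ))) := fun F c v _ =>
    Real.rpow_nonneg (Nat.cast_nonneg _) _
  have hf1 : ∀ (F : Finset (Pl K)) (c : Pl K → ℕ),
      ∏ v ∈ F, (nm v : ℝ) ^ (-((c v : ℝ) / (a : ℝ))) ≤ 1 := by
    intro F c
    refine Finset.prod_le_one (hf0 F c) fun v _ => ?_
    refine Real.rpow_le_one_of_one_le_of_nonpos ?_ ?_
    · exact_mod_cast (one_lt_nm v).le
    · have : 0 ≤ (c v : ℝ) / (a : ℝ) := by positivity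
      linarith
  have h1 := Finset.prod_nonneg (hf0 A fun _ => r)
  have h2 := Finset.prod_nonneg (hf0 (E \ A) (co a))
  unfold UZ
  refine ⟨mul_nonneg hB0 (mul_nonneg h1 h2), mul_le_of_le_one_right hB0 ?_⟩
  exact mul_le_one₀ (hf1 A fun _ => r) h2 (hf1 (E \ A) (co a))

end H86.HT
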