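import Pool.Agent.H86.HT.Wty
import Pool.Agent.H86.HT.Cny
import Pool.Agent.H51.HC.Typ
import Pool.Agent.H77.PLF.Gux

/-!
# H86-HT-HUT: domination with exponent `θ` (in the place of H51/HC/Hux.lean: `RBL` is `RBLt` with `θ = 1`, `r = a + 1`) (MP_b39724_nt, think 1781)

Given the set `E` of untyped primes of `φ : Γ → G`: `A ⊆ E` the set of primes where `β = ph ∘ φ` is ramified (a typed prime is unramified for `β`: `hx_ty`), `β ∈ HB D L H A`; for given `A`, `β` the homomorphism `φ` is determined by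
`pr ∘ φ ∈ PU L Q.cP E (UZ B a r A E)` (`cny_nr` with `h3`; `Q.inj`), so there are at most `C (nr E)^η UZ (1 + log UZ)^(N-1)` (`PUb`, `uz_le`). Sum over `β ∈ HB D L H A` (finite: `rblt_fin`) and `A ⊆ E`: `wty` with `q = 1` and the `η` from `wty`. Second part: sum over `E` (as in `gux`, H77/PLF/Gux.lean).
-/

set_option autoImplicit false

open scoped NumberField
open IsDedekindDomain H38.ML
open scoped Classical

noncomputable section

namespace H86.HT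

open H63.MA H38.BB H38.BG H57.PC H57.BRA H63.BU H77.PC3 H57.CC H38.AS H77.S0T H77.AB H77.FLD
  H77.PLF H51.PF H51.F3 H51.TC H51.HC

theorem rblt_fin {K : Type} [Field K] [NumberField K] {Ω : Type} [Field Ω] [Algebra K Ω] {p : ℕ}
    {ζ : K} (D : RD0 K p ζ) (L : LDs D Ω) (H : Type) [Group H] (θ : ℝ)
    (hRB : RBLt D L H θ) (A : Finset (Pl K)) : (HB D L H A).Finite := by
  obtain ⟨C, hC⟩ := hRB 1 one_pos
  by_contra hinf
  obtain ⟨F, hF1, hF2⟩ := Set.Infinite.exists_subset_card_eq hinf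
    (⌊C * nr A ^ (θ + 1 : ℝ)⌋₊ + 1)
  have h2 := hC (nr A) (one_le_nr A) F (by
    intro φ hφ
    have h3 := hF1 hφ
    refine ⟨h3.1, fun T hT => nr_mono fun v hv => ?_⟩
    obtain ⟨hvS, τ, hτ, hne⟩ := hT v hv
    by_contra hvA
    exact hne (h3.2 v hvS hvA τ hτ))
  rw [hF2] at h2
  push_cast at h2
  have h3 := Nat.lt_floor_add_one (C * nr A ^ (θ + 1 : ℝ))
  linarith

/-- the weight of a set `A` in `E` -/
private def hutw {K : Type} [Field K] [NumberField K] (a r : ℕ) (A E : Finset (Pl K)) : ℝ :=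
  (∏ v ∈ A, (nm v : ℝ) ^ (-((r : ℝ) / (a : ℝ)))) *
    ∏ v ∈ E \ A, (nm v : ℝ) ^ (-((co a v : ℝ) / (a : ℝ)))

private theorem hut_cnt {K : IntermediateField ℚ QBar} [NumberField K] {p : ℕ} {ζ : K} {N : ℕ}
    {G P H : Type} [Group G] [Finite G] [Group P] [Group H] (hp : p.Prime)
    (hζ : IsPrimitiveRoot ζ p) {M : ℕ} {z₂ : K} (hz2 : IsPrimitiveRoot z₂ (p ^ M))
    (D : RD K p ζ) (L : LDs D.toRD0 QBar) (Q : HX p N G P H)
    (hU : PUb p M Q.cP) (θ : ℝ) (hRB : RBLt D.toRD0 L H θ)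
    (hS : ∀ v : Pl K, ((Nat.card G : ℕ) : 𝓞 K) ∈ v.asIdeal → v ∈ D.S0) (a r : ℕ) (ha : 0 < a)
    (har : a < r) (ix : Subgroup G → ℕ) (h1 : ∀ J, J ≠ ⊥ → a ≤ ix J)
    (h2 : ∀ g : G, g ≠ 1 → ix (Subgroup.zpowers g) ≤ a → ∃ i, IsConj g (Q.cl.g i))
    (h3 : ∀ J : Subgroup G, ¬ J ≤ Q.ph.ker → r ≤ ix J) (η : ℝ) (hη : 0 < η) :
    ∃ C : ℝ, 0 < C ∧ ∀ (B : ℝ) (E : Finset (Pl K)), 3 ≤ B → ∀ Rs : Finset (Gal(QBar/K) →* G),
      (∀ φ ∈ Rs, H38.ML.FT φ ∧ Function.Surjective φ ∧ (∀ T : Finset (Pl K),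
        (∀ v ∈ T, v ∉ D.S0) → ∏ v ∈ T, (nm v : ℝ) ^ ix ((inr L v).map φ) ≤ B) ∧
        ∀ v, v ∈ E ↔ Rm L φ v ∧ ∀ i, ¬ TyC Q.cl L φ i v) →
      (Rs.card : ℝ) ≤ C * (nr E ^ η * ∑ A ∈ E.powerset, ((HB D.toRD0 L H A).ncard : ℝ) *
        hutw a r A E) * (B ^ (1 / (a : ℝ)) * Real.log B ^ (N - 1)) := by
  have haR : (0 : ℝ) < (a : ℝ) := by exact_mod_cast ha
  have ha1 : (1 : ℝ) ≤ (a : ℝ) := by exact_mod_cast ha
  obtain ⟨C₂, hC₂, hub⟩ := hU K ζ hζ z₂ hz2 D L η hη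
  refine ⟨C₂ * 2 ^ (N - 1), by positivity, ?_⟩
  intro B E hB Rs hRs
  have hB1 : 1 ≤ B := by linarith
  have hB0 : 0 < B := by linarith
  have hlog1 : 1 ≤ Real.log B := by
    rw [Real.le_log_iff_exp_le hB0]
    exact Real.exp_one_lt_three.le.trans hB
  have hnr := one_le_nr E
  -- the data of a homomorphism
  obtain ⟨eA, heA⟩ : ∃ eA : (Gal(QBar/K) →* G) → Finset (Pl K),
      eA = fun φ => E.filter fun v => ∃ τ ∈ inr L v, Q.ph (φ τ) ≠ 1 := ⟨_, rfl⟩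
  obtain ⟨eβ, heβ⟩ : ∃ eβ : (Gal(QBar/K) →* G) → (Gal(QBar/K) →* H),
      eβ = fun φ => Q.ph.comp φ := ⟨_, rfl⟩
  have hty : ∀ φ ∈ Rs, ∀ v, v ∉ D.S0 → v ∉ E →
      (∀ τ ∈ inr L v, φ τ = 1) ∨ ∃ i, TyC Q.cl L φ i v := by
    intro φ hφ v hv hvE
    obtain ⟨-, -, -, r4⟩ := hRs φ hφ
    by_cases h : ∀ τ ∈ inr L v, φ τ = 1
    · exact Or.inl h
    · right
      by_contra hcon
      push Not at hcon h
      exact hvE ((r4 v).2 ⟨⟨hv, h⟩, hcon⟩)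
  have hmem : ∀ φ ∈ Rs, eA φ ∈ E.powerset ∧ eβ φ ∈ HB D.toRD0 L H (eA φ) := by
    intro φ hφ
    obtain ⟨r1, -, -, -⟩ := hRs φ hφ
    subst heA heβ
    refine ⟨Finset.mem_powerset.2 (Finset.filter_subset _ _), ft_comp _ _ r1,
      fun v hv hvA τ hτ => ?_⟩
    rw [MonoidHom.comp_apply]
    by_cases hvE : v ∈ E
    · by_contra hne
      exact hvA (Finset.mem_filter.2 ⟨hvE, τ, hτ, hne⟩)
    · rcases hty φ hφ v hv hvE with h | ⟨i, hi⟩
      · rw [h τ hτ, map_one]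
      · exact ((hx_ty hp hζ Q L φ r1 i v).1 hi).2 τ hτ
  have hcn : ∀ φ ∈ Rs, ∀ f : Fin N → Finset (Pl K), (∀ i v, v ∈ f i ↔ TyC Q.cl L φ i v) →
      ∏ i, nr (f i) ≤ UZ B a r (eA φ) E ∧ Dj f ∧ 1 ≤ UZ B a r (eA φ) E := by
    intro φ hφ f hf
    obtain ⟨r1, -, r2, r3⟩ := hRs φ hφ
    obtain ⟨g1, g2, -, g3, -⟩ := cny_nr hp hζ D.toRD0 L Q.cl hS a r ha har.le ix h1 h2 φ r1 B r2 f
      (eA φ) E hf r3 (Finset.mem_powerset.1 (hmem φ hφ).1) fun v hv => by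
        refine h3 _ fun hle => ?_
        subst heA
        obtain ⟨-, τ, hτ, hne⟩ := Finset.mem_filter.1 hv
        exact hne (hle (Subgroup.mem_map_of_mem φ hτ))
    exact ⟨g1, g2, g3⟩
  have hsets : ∀ φ ∈ Rs, ∃ f : Fin N → Finset (Pl K), ∀ i v, v ∈ f i ↔ TyC Q.cl L φ i v := by
    intro φ hφ
    obtain ⟨f, -, hf, -⟩ := csets L Q.cl φ (hRs φ hφ).1
    exact ⟨f, hf⟩
  -- the components in `P`
  have hPU : ∀ φ ∈ Rs, Q.pr.comp φ ∈ PU L Q.cP E (UZ B a r (eA φ) E) := by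
    intro φ hφ
    obtain ⟨r1, r2, r3, r4⟩ := hRs φ hφ
    obtain ⟨f, hf⟩ := hsets φ hφ
    obtain ⟨g1, g2, -⟩ := hcn φ hφ f hf
    refine ⟨ft_comp _ _ r1, Q.prs.comp r2, fun v hv hvE => ?_, fun T hT => ?_⟩
    · rcases hty φ hφ v hv hvE with h | ⟨i, hi⟩
      · exact Or.inl fun τ hτ => by rw [MonoidHom.comp_apply, h τ hτ, map_one]
      · exact Or.inr ⟨i, ((hx_ty hp hζ Q L φ r1 i v).1 hi).1⟩
    · have hsub : T ⊆ Finset.univ.biUnion f := by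
        intro v hv
        obtain ⟨g5, g6, g7⟩ := hT v hv
        rcases hty φ hφ v g5 g6 with h | ⟨i, hi⟩
        · exact absurd (fun τ hτ => by rw [MonoidHom.comp_apply, h τ hτ, map_one]) g7
        · exact Finset.mem_biUnion.2 ⟨i, Finset.mem_univ _, (hf i v).2 hi⟩
      calc ∏ v ∈ T, (nm v : ℝ) ≤ ∏ v ∈ Finset.univ.biUnion f, (nm v : ℝ) := by
            rw [← Finset.prod_sdiff hsub]
            refine le_mul_of_one_le_left (Finset.prod_nonneg fun v _ => Nat.cast_nonneg _) ?_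
            exact one_le_nr _
        _ = ∏ i, nr (f i) := by
            rw [Finset.prod_biUnion fun i _ j _ hij => g2 i j hij]
            rfl
        _ ≤ _ := g1
  -- one fibre
  have hfib : ∀ (A : Finset (Pl K)) (β : Gal(QBar/K) →* H),
      ((Rs.filter fun φ => eA φ = A ∧ eβ φ = β).card : ℝ) ≤
        C₂ * nr E ^ η * UZ B a r A E * (2 * Real.log B) ^ (N - 1) := by
    intro A β
    have hUA := uz_le B hB1 a r A E
    have hUA0 : 0 ≤ UZ B a r A E := hUA.1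
    rcases (Rs.filter fun φ => eA φ = A ∧ eβ φ = β).eq_empty_or_nonempty with h0 | ⟨φ₀, hφ₀⟩
    · rw [h0, Finset.card_empty, Nat.cast_zero]
      positivity
    · obtain ⟨hφ₀, hA₀, -⟩ := Finset.mem_filter.1 hφ₀
      obtain ⟨f₀, hf₀⟩ := hsets φ₀ hφ₀
      obtain ⟨-, -, hUY1⟩ := hcn φ₀ hφ₀ f₀ hf₀
      rw [hA₀] at hUY1
      have hlogU : Real.log (UZ B a r A E) ≤ Real.log B := by
        have h5 : UZ B a r A E ≤ B := by
          refine hUA.2.trans ?_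
          calc B ^ (1 / (a : ℝ)) ≤ B ^ (1 : ℝ) := by
                refine Real.rpow_le_rpow_of_exponent_le hB1 ?_
                rw [div_le_one haR]
                exact ha1
            _ = B := Real.rpow_one B
        exact Real.log_le_log (by linarith) h5
      have hlogU0 : 0 ≤ Real.log (UZ B a r A E) := Real.log_nonneg hUY1
      have h6 : (1 + Real.log (UZ B a r A E)) ^ (N - 1) ≤ (2 * Real.log B) ^ (N - 1) :=
        pow_le_pow_left₀ (by linarith) (by linarith) _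
      have hinj : Set.InjOn (fun φ : Gal(QBar/K) →* G => Q.pr.comp φ)
          (Rs.filter fun φ => eA φ = A ∧ eβ φ = β : Finset (Gal(QBar/K) →* G)) := by
        intro φ hφ φ' hφ' h
        obtain ⟨-, -, e1⟩ := Finset.mem_filter.1 (Finset.mem_coe.1 hφ)
        obtain ⟨-, -, e2⟩ := Finset.mem_filter.1 (Finset.mem_coe.1 hφ')
        refine MonoidHom.ext fun σ => Q.inj _ _ (DFunLike.congr_fun h σ) ?_
        subst heβ
        exact DFunLike.congr_fun (e1.trans e2.symm) σ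
      rw [← Finset.card_image_of_injOn hinj]
      refine (hub E (UZ B a r A E) hUY1 _ fun ψ hψ => ?_).trans
        (mul_le_mul_of_nonneg_left h6 (by positivity))
      obtain ⟨φ, hφ, rfl⟩ := Finset.mem_image.1 hψ
      obtain ⟨hφ, e1, -⟩ := Finset.mem_filter.1 hφ
      have := hPU φ hφ
      rw [e1] at this
      exact this
  -- the sum over the fibres
  have hfinH : ∀ A, (HB D.toRD0 L H A).Finite := fun A => rblt_fin D.toRD0 L H θ hRB A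
  have hsum : (Rs.card : ℝ) ≤ ∑ A ∈ E.powerset, ∑ β ∈ (hfinH A).toFinset,
      ((Rs.filter fun φ => eA φ = A ∧ eβ φ = β).card : ℝ) := by
    have h7 : Rs.card ≤ ∑ A ∈ E.powerset, ∑ β ∈ (hfinH A).toFinset,
        (Rs.filter fun φ => eA φ = A ∧ eβ φ = β).card := by
      rw [Finset.card_eq_sum_card_fiberwise (f := eA) (s := Rs) (t := E.powerset)
        fun φ hφ => Finset.mem_coe.2 (hmem φ hφ).1]
      refine Finset.sum_le_sum fun A _ => ?_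
      rw [Finset.card_eq_sum_card_fiberwise (f := eβ) (t := (hfinH A).toFinset)
        fun φ hφ => by
          obtain ⟨hφ, e1⟩ := Finset.mem_filter.1 (Finset.mem_coe.1 hφ)
          rw [Finset.mem_coe, Set.Finite.mem_toFinset, ← e1]
          exact (hmem φ hφ).2]
      refine Finset.sum_le_sum fun β _ => le_of_eq ?_
      rw [Finset.filter_filter]
    exact_mod_cast h7
  refine hsum.trans ?_
  have h8 : ∑ A ∈ E.powerset, ∑ β ∈ (hfinH A).toFinset,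
      ((Rs.filter fun φ => eA φ = A ∧ eβ φ = β).card : ℝ) ≤
      ∑ A ∈ E.powerset, ((HB D.toRD0 L H A).ncard : ℝ) *
        (C₂ * nr E ^ η * UZ B a r A E * (2 * Real.log B) ^ (N - 1)) := by
    refine Finset.sum_le_sum fun A _ => ?_
    refine (Finset.sum_le_sum fun β _ => hfib A β).trans ?_
    rw [Finset.sum_const, nsmul_eq_mul, Set.ncard_eq_toFinset_card _ (hfinH A)]
  refine h8.trans (le_of_eq ?_)
  rw [Finset.mul_sum, Finset.mul_sum, Finset.sum_mul]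
  refine Finset.sum_congr rfl fun A _ => ?_
  have e2 : UZ B a r A E = B ^ (1 / (a : ℝ)) * hutw a r A E := rfl
  rw [e2, mul_pow]
  ring

theorem hut {K : IntermediateField ℚ QBar} [NumberField K] {p : ℕ} {ζ : K} {N : ℕ}
    {G P H : Type} [Group G] [Finite G] [Group P] [Group H] (hp : p.Prime)
    (hζ : IsPrimitiveRoot ζ p) {M : ℕ} {z₂ : K} (hz2 : IsPrimitiveRoot z₂ (p ^ M))
    (D : RD K p ζ) (L : LDs D.toRD0 QBar) (Q : HX p N G P H)
    (hP : IsPGroup p P) (hU : PUb p M Q.cP) (θ : ℝ) (hθ : 0 ≤ θ)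
    (hRB : RBLt D.toRD0 L H θ)
    (hS : ∀ v : Pl K, ((Nat.card G : ℕ) : 𝓞 K) ∈ v.asIdeal → v ∈ D.S0) (a r : ℕ) (ha : 0 < a)
    (har : a < r) (hr : θ < (r : ℝ) / (a : ℝ))
    (ix : Subgroup G → ℕ) (h1 : ∀ J, J ≠ ⊥ → a ≤ ix J)
    (h2 : ∀ g : G, g ≠ 1 → ix (Subgroup.zpowers g) ≤ a → ∃ i, IsConj g (Q.cl.g i))
    (h3 : ∀ J : Subgroup G, ¬ J ≤ Q.ph.ker → r ≤ ix J) :
    (∃ wt : Finset (Pl K) → ℝ, Summable wt ∧ (∀ E, 0 ≤ wt E) ∧
      ∀ (B : ℝ) (E : Finset (Pl K)), 3 ≤ B → ∀ Rs : Finset (Gal(QBar/K) →* G),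
      (∀ φ ∈ Rs, H38.ML.FT φ ∧ Function.Surjective φ ∧ (∀ T : Finset (Pl K),
        (∀ v ∈ T, v ∉ D.S0) → ∏ v ∈ T, (nm v : ℝ) ^ ix ((inr L v).map φ) ≤ B) ∧
        ∀ v, v ∈ E ↔ Rm L φ v ∧ ∀ i, ¬ TyC Q.cl L φ i v) →
      (Rs.card : ℝ) ≤ wt E * (B ^ (1 / (a : ℝ)) * Real.log B ^ (N - 1))) ∧
    ∃ C : ℝ, 0 < C ∧ ∀ B : ℝ, 3 ≤ B → ∀ Rs : Finset (Gal(QBar/K) →* G),
      (∀ φ ∈ Rs, H38.ML.FT φ ∧ Function.Surjective φ ∧ ∀ T : Finset (Pl K),
        (∀ v ∈ T, v ∉ D.S0) → ∏ v ∈ T, (nm v : ℝ) ^ ix ((inr L v).map φ) ≤ B) →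
      (Rs.card : ℝ) ≤ C * (B ^ (1 / (a : ℝ)) * Real.log B ^ (N - 1)) := by
  obtain ⟨η, hη, hsm⟩ := wty D.toRD0 L H θ hθ hRB a r ha har hr 1 zero_le_one
  obtain ⟨C, hC, hcnt⟩ := hut_cnt hp hζ hz2 D L Q hU θ hRB hS a r ha har ix h1 h2 h3 η hη
  have hw0 : ∀ A E : Finset (Pl K), 0 ≤ hutw a r A E := fun A E =>
    mul_nonneg (Finset.prod_nonneg fun v _ => Real.rpow_nonneg (Nat.cast_nonneg _) _)
      (Finset.prod_nonneg fun v _ => Real.rpow_nonneg (Nat.cast_nonneg _) _)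
  obtain ⟨w, hw⟩ : ∃ w : Finset (Pl K) → ℝ, w = fun E => nr E ^ η *
      ∑ A ∈ E.powerset, ((HB D.toRD0 L H A).ncard : ℝ) * hutw a r A E := ⟨_, rfl⟩
  have hwn : ∀ E, 0 ≤ w E := by
    intro E
    have hnr := one_le_nr E
    rw [hw]
    exact mul_nonneg (Real.rpow_nonneg (by linarith) _)
      (Finset.sum_nonneg fun A _ => mul_nonneg (Nat.cast_nonneg _) (hw0 A E))
  have hws : Summable w := by
    rw [hw]
    refine hsm.congr fun E => ?_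
    rw [one_pow, one_mul]
    rfl
  have hcnt' : ∀ (B : ℝ) (E : Finset (Pl K)), 3 ≤ B → ∀ Rs : Finset (Gal(QBar/K) →* G),
      (∀ φ ∈ Rs, H38.ML.FT φ ∧ Function.Surjective φ ∧ (∀ T : Finset (Pl K),
        (∀ v ∈ T, v ∉ D.S0) → ∏ v ∈ T, (nm v : ℝ) ^ ix ((inr L v).map φ) ≤ B) ∧
        ∀ v, v ∈ E ↔ Rm L φ v ∧ ∀ i, ¬ TyC Q.cl L φ i v) →
      (Rs.card : ℝ) ≤ C * w E * (B ^ (1 / (a : ℝ)) * Real.log B ^ (N - 1)) := by
    intro B E hB Rs hRs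
    rw [hw]
    exact hcnt B E hB Rs hRs
  refine ⟨⟨fun E => C * w E, hws.mul_left C, fun E => mul_nonneg hC.le (hwn E), hcnt'⟩,
    C * (∑' E, w E) + 1, by
      have : 0 ≤ ∑' E, w E := tsum_nonneg hwn
      positivity, fun B hB Rs hRs => ?_⟩
  have hex : ∀ φ : Gal(QBar/K) →* G, ∃ E : Finset (Pl K), φ ∈ Rs →
      ∀ v, v ∈ E ↔ Rm L φ v ∧ ∀ i, ¬ TyC Q.cl L φ i v := by
    intro φ
    by_cases hφ : φ ∈ Rs
    · obtain ⟨-, E, -, hE⟩ := csets L Q.cl φ (hRs φ hφ).1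
      exact ⟨E, fun _ => hE⟩
    · exact ⟨∅, fun h => absurd h hφ⟩
  choose e he using hex
  have hlog : 0 ≤ Real.log B := Real.log_nonneg (by linarith)
  have hX : 0 ≤ B ^ (1 / (a : ℝ)) * Real.log B ^ (N - 1) :=
    mul_nonneg (Real.rpow_nonneg (by linarith) _) (pow_nonneg hlog _)
  rw [Finset.card_eq_sum_card_image e]
  push_cast
  calc ∑ E ∈ Rs.image e, ((Rs.filter fun φ => e φ = E).card : ℝ) ≤
      ∑ E ∈ Rs.image e, C * w E * (B ^ (1 / (a : ℝ)) * Real.log B ^ (N - 1)) := by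
        refine Finset.sum_le_sum fun E _ => hcnt' B E hB _ ?_
        intro φ hφ
        obtain ⟨hφ, hE⟩ := Finset.mem_filter.1 hφ
        obtain ⟨r1, r2, r3⟩ := hRs φ hφ
        refine ⟨r1, r2, r3, ?_⟩
        rw [← hE]
        exact he φ hφ
    _ = C * (∑ E ∈ Rs.image e, w E) * (B ^ (1 / (a : ℝ)) * Real.log B ^ (N - 1)) := by
        rw [Finset.mul_sum, Finset.sum_mul]
    _ ≤ C * (∑' E, w E) * (B ^ (1 / (a : ℝ)) * Real.log B ^ (N - 1)) :=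
        mul_le_mul_of_nonneg_right (mul_le_mul_of_nonneg_left
          (hws.sum_le_tsum _ fun E _ => hwn E) hC.le) hX
    _ ≤ _ := mul_le_mul_of_nonneg_right (by linarith) hX

end H86.HT
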