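import Pool.Agent.H86.HT.Def
import Pool.Agent.H51.TC.Wts

/-!
# H86-HT-WTY: summability of the weights (MP_b39724_nt, think 1781)

As `dya` (H51/TC/Dya.lean) and `wts` (H51/TC/Wts.lean) with the exponent `θ` in the counting hypothesis and all subsets `A` of `E` in the place of `Aw E`:
the sum over `E` of `q^(#E) nr(E)^η ∑_(A ⊆ E) #HB(A) ∏_A nm^(-r/a) ∏_(E ∖ A) nm^(-(co a v)/a)`. Put `E = A ⊔ E'`: the sum over `E'` is bounded by the product over all `v` of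
`1 + q nm v^(η - (co a v)/a)` (primes of prime norm: `co = a + 1`; the others have norm `≥ p^2`, exponent `1`: see `usum` in H63/BU), the sum over `A` by `dya` for the exponent `θ`: `r / a - η > θ`.
(`a < r` is needed for the primes of `A` which are not ramified.) `#HB(A) ≤` number of homomorphisms with ramified primes in `A`: `∑_(A ∈ 𝓐) #HB'(A) ≤ C Y^(θ+ε)` with `HB'(A)` = exactly ramified in `A`, `HB(A) = ∪_(A' ⊆ A) HB'(A')`, or as in `wts`.
-/

set_option autoImplicit false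

open scoped NumberField
open IsDedekindDomain
open scoped Classical

noncomputable section

namespace H86.HT

open H63.MA H38.BB H38.BG H38.AS H63.BU H51.TC

variable {K : Type} [Field K] [NumberField K] {Ω : Type} [Field Ω] [Algebra K Ω] {p : ℕ} {ζ : K}

theorem dyt (θ : ℝ) (hθ : 0 ≤ θ) (h : Finset (Pl K) → ℝ) (h0 : ∀ R, 0 ≤ h R)
    (H : ∀ ε : ℝ, 0 < ε → ∃ C : ℝ, ∀ Y : ℝ, 1 ≤ Y → ∀ Rs : Finset (Finset (Pl K)),
      (∀ R ∈ Rs, nr R ≤ Y) → ∑ R ∈ Rs, h R ≤ C * Y ^ (θ + ε)) (q δ : ℝ) (hq : 0 ≤ q)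
    (hδ : 0 < δ) :
    ∃ C : ℝ, ∀ Rs : Finset (Finset (Pl K)),
      ∑ R ∈ Rs, h R * (q ^ R.card * nr R ^ (-θ - δ)) ≤ C := by
  set ε : ℝ := δ / 4 with hε
  have hε0 : 0 < ε := by positivity
  obtain ⟨C₁, hC₁, h1⟩ := pow_card_nr (K := K) q ε hq hε0
  obtain ⟨C₂, h2⟩ := H ε hε0
  have hC₂ : 0 ≤ C₂ := by
    have := h2 1 le_rfl ∅ (by simp)
    rw [Finset.sum_empty, Real.one_rpow, mul_one] at this
    exact this
  set r : ℝ := (2 : ℝ) ^ (-(δ / 2)) with hr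
  have hr0 : 0 < r := Real.rpow_pos_of_pos (by norm_num) _
  have hr1 : r < 1 := Real.rpow_lt_one_of_one_lt_of_neg (by norm_num) (by linarith)
  have hr1' : 0 < 1 - r := by linarith
  refine ⟨C₁ * C₂ * 2 ^ (θ + ε) * (1 - r)⁻¹, fun Rs => ?_⟩
  set k : Finset (Pl K) → ℕ := fun R => Nat.log 2 ⌊nr R⌋₊ with hk
  have hklo : ∀ R, (2 : ℝ) ^ k R ≤ nr R := by
    intro R
    have h3 : 1 ≤ ⌊nr R⌋₊ := Nat.one_le_floor_iff (nr R) |>.2 (one_le_nr R)
    have h4 : 2 ^ k R ≤ ⌊nr R⌋₊ := Nat.pow_log_le_self 2 (by omega)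
    calc (2 : ℝ) ^ k R = ((2 ^ k R : ℕ) : ℝ) := by push_cast; rfl
      _ ≤ (⌊nr R⌋₊ : ℝ) := by exact_mod_cast h4
      _ ≤ nr R := Nat.floor_le (by linarith [one_le_nr R])
  have hkhi : ∀ R, nr R ≤ (2 : ℝ) ^ (k R + 1) := by
    intro R
    have h4 : ⌊nr R⌋₊ < 2 ^ (k R + 1) := Nat.lt_pow_succ_log_self (by norm_num) _
    have h5 : ⌊nr R⌋₊ + 1 ≤ 2 ^ (k R + 1) := h4
    calc nr R ≤ (⌊nr R⌋₊ : ℝ) + 1 := (Nat.lt_floor_add_one _).le
      _ = ((⌊nr R⌋₊ + 1 : ℕ) : ℝ) := by push_cast; rfl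
      _ ≤ ((2 ^ (k R + 1) : ℕ) : ℝ) := by exact_mod_cast h5
      _ = (2 : ℝ) ^ (k R + 1) := by push_cast; rfl
  have hterm : ∀ R, h R * (q ^ R.card * nr R ^ (-θ - δ)) ≤
      C₁ * ((2 : ℝ) ^ k R) ^ (-θ - δ + ε) * h R := by
    intro R
    have h3 : 0 < nr R := lt_of_lt_of_le one_pos (one_le_nr R)
    have h4 : q ^ R.card * nr R ^ (-θ - δ) ≤ C₁ * nr R ^ (-θ - δ + ε) := by
      calc q ^ R.card * nr R ^ (-θ - δ) ≤ C₁ * nr R ^ ε * nr R ^ (-θ - δ) :=
            mul_le_mul_of_nonneg_right (h1 R) (Real.rpow_nonneg h3.le _)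
        _ = C₁ * nr R ^ (-θ - δ + ε) := by
            rw [mul_assoc, ← Real.rpow_add h3]
            ring_nf
    have h5 : nr R ^ (-θ - δ + ε) ≤ ((2 : ℝ) ^ k R) ^ (-θ - δ + ε) :=
      Real.rpow_le_rpow_of_nonpos (by positivity) (hklo R) (by rw [hε]; linarith)
    calc h R * (q ^ R.card * nr R ^ (-θ - δ)) ≤ h R * (C₁ * nr R ^ (-θ - δ + ε)) :=
          mul_le_mul_of_nonneg_left h4 (h0 R)
      _ ≤ h R * (C₁ * ((2 : ℝ) ^ k R) ^ (-θ - δ + ε)) :=
          mul_le_mul_of_nonneg_left (mul_le_mul_of_nonneg_left h5 hC₁.le) (h0 R)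
      _ = _ := by ring
  have hlayer : ∀ j : ℕ, ∑ R ∈ Rs.filter (fun R => k R = j),
      C₁ * ((2 : ℝ) ^ k R) ^ (-θ - δ + ε) * h R ≤ C₁ * C₂ * 2 ^ (θ + ε) * r ^ j := by
    intro j
    have e1 : ∑ R ∈ Rs.filter (fun R => k R = j), C₁ * ((2 : ℝ) ^ k R) ^ (-θ - δ + ε) * h R =
        C₁ * ((2 : ℝ) ^ j) ^ (-θ - δ + ε) * ∑ R ∈ Rs.filter (fun R => k R = j), h R := by
      rw [Finset.mul_sum]
      refine Finset.sum_congr rfl fun R hR => ?_
      rw [(Finset.mem_filter.1 hR).2]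
    have h3 := h2 ((2 : ℝ) ^ (j + 1)) (one_le_pow₀ (by norm_num))
      (Rs.filter fun R => k R = j) (by
        intro R hR
        have := hkhi R
        rwa [(Finset.mem_filter.1 hR).2] at this)
    rw [e1]
    have e2 : ((2 : ℝ) ^ j) ^ (-θ - δ + ε) * ((2 : ℝ) ^ (j + 1)) ^ (θ + ε) = 2 ^ (θ + ε) * r ^ j := by
      rw [hr, ← Real.rpow_natCast, ← Real.rpow_natCast, ← Real.rpow_natCast,
        ← Real.rpow_mul (by norm_num), ← Real.rpow_mul (by norm_num),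
        ← Real.rpow_mul (by norm_num), ← Real.rpow_add (by norm_num),
        ← Real.rpow_add (by norm_num)]
      congr 1
      rw [hε]
      push_cast
      ring
    calc C₁ * ((2 : ℝ) ^ j) ^ (-θ - δ + ε) * ∑ R ∈ Rs.filter (fun R => k R = j), h R ≤
        C₁ * ((2 : ℝ) ^ j) ^ (-θ - δ + ε) * (C₂ * ((2 : ℝ) ^ (j + 1)) ^ (θ + ε)) :=
          mul_le_mul_of_nonneg_left h3 (by positivity)
      _ = C₁ * C₂ * (((2 : ℝ) ^ j) ^ (-θ - δ + ε) * ((2 : ℝ) ^ (j + 1)) ^ (θ + ε)) := by ring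
      _ = _ := by rw [e2]; ring
  calc ∑ R ∈ Rs, h R * (q ^ R.card * nr R ^ (-θ - δ)) ≤
      ∑ R ∈ Rs, C₁ * ((2 : ℝ) ^ k R) ^ (-θ - δ + ε) * h R :=
        Finset.sum_le_sum fun R _ => hterm R
    _ = ∑ j ∈ Rs.image k, ∑ R ∈ Rs.filter (fun R => k R = j),
        C₁ * ((2 : ℝ) ^ k R) ^ (-θ - δ + ε) * h R :=
        (Finset.sum_fiberwise_of_maps_to (fun R hR => Finset.mem_image_of_mem k hR) _).symm
    _ ≤ ∑ j ∈ Rs.image k, C₁ * C₂ * 2 ^ (θ + ε) * r ^ j := Finset.sum_le_sum fun j _ => hlayer j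
    _ = C₁ * C₂ * 2 ^ (θ + ε) * ∑ j ∈ Rs.image k, r ^ j := by rw [Finset.mul_sum]
    _ ≤ C₁ * C₂ * 2 ^ (θ + ε) * (1 - r)⁻¹ := by
        refine mul_le_mul_of_nonneg_left ?_ (by positivity)
        rw [← tsum_geometric_of_lt_one hr0.le hr1]
        exact (summable_geometric_of_lt_one hr0.le hr1).sum_le_tsum _ fun j _ => by positivity


theorem hbt_fin (D : RD0 K p ζ) (L : LDs D Ω) (H : Type) [Group H] (θ : ℝ) (hRB : RBLt D L H θ)
    (A : Finset (Pl K)) : (HB D L H A).Finite := by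
  obtain ⟨C, hC⟩ := hRB 1 one_pos
  by_contra hinf
  obtain ⟨F, hF1, hF2⟩ := Set.Infinite.exists_subset_card_eq hinf
    (⌊C * nr A ^ (θ + 1 : ℝ)⌋₊ + 1)
  have h2 := hC (nr A) (one_le_nr A) F (by
    intro φ hφ
    have h3 := hF1 hφ
    refine ⟨h3.1, fun T hT => nr_mono fun v hv => ?_⟩
    obtain ⟨hvS, τ, hτ, hne⟩ := hT v hv
    by_contra hvA
    exact hne (h3.2 v hvS hvA τ hτ))
  rw [hF2] at h2
  push_cast at h2
  have h3 := Nat.lt_floor_add_one (C * nr A ^ (θ + 1 : ℝ))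
  linarith

theorem hbt_le (D : RD0 K p ζ) (L : LDs D Ω) (H : Type) [Group H] (θ : ℝ) (hRB : RBLt D L H θ)
    (A : Finset (Pl K)) :
    ((HB D L H A).ncard : ℝ) ≤ ∑ R ∈ A.powerset, ((HR D L H R).ncard : ℝ) := by
  have hf := hbt_fin D L H θ hRB A
  have hR : ∀ R, (HR D L H R).Finite := fun R => (hbt_fin D L H θ hRB R).subset (hr_sub D L H R)
  rw [Set.ncard_eq_toFinset_card _ hf]
  have h1 : hf.toFinset ⊆ A.powerset.biUnion fun R => (hR R).toFinset := by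
    intro β hβ
    rw [Set.Finite.mem_toFinset] at hβ
    obtain ⟨h2, h3⟩ := hβ
    rw [Finset.mem_biUnion]
    refine ⟨A.filter fun v => Rm L β v, Finset.mem_powerset.2 (Finset.filter_subset _ _), ?_⟩
    rw [Set.Finite.mem_toFinset]
    refine ⟨h2, fun v => ?_⟩
    rw [Finset.mem_filter]
    refine ⟨fun h => h.2, fun h => ⟨?_, h⟩⟩
    obtain ⟨hvS, τ, hτ, hne⟩ := h
    by_contra hvA
    exact hne (h3 v hvS hvA τ hτ)
  have h2 := (Finset.card_le_card h1).trans Finset.card_biUnion_le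
  have h3 : ∀ R, (hR R).toFinset.card = (HR D L H R).ncard := fun R =>
    (Set.ncard_eq_toFinset_card _ (hR R)).symm
  calc (hf.toFinset.card : ℝ) ≤ ((∑ R ∈ A.powerset, (hR R).toFinset.card : ℕ) : ℝ) := by
        exact_mod_cast h2
    _ = _ := by
        push_cast
        exact Finset.sum_congr rfl fun R _ => by rw [h3 R]

theorem hrt_sum (D : RD0 K p ζ) (L : LDs D Ω) (H : Type) [Group H] (θ : ℝ) (hRB : RBLt D L H θ) (ε : ℝ)
    (hε : 0 < ε) : ∃ C : ℝ, ∀ Y : ℝ, 1 ≤ Y → ∀ Rs : Finset (Finset (Pl K)),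
      (∀ R ∈ Rs, nr R ≤ Y) → ∑ R ∈ Rs, ((HR D L H R).ncard : ℝ) ≤ C * Y ^ (θ + ε) := by
  obtain ⟨C, hC⟩ := hRB ε hε
  refine ⟨C, fun Y hY Rs hRs => ?_⟩
  have hR : ∀ R, (HR D L H R).Finite := fun R => (hbt_fin D L H θ hRB R).subset (hr_sub D L H R)
  have h1 := hC Y hY (Rs.biUnion fun R => (hR R).toFinset) (by
    intro φ hφ
    rw [Finset.mem_biUnion] at hφ
    obtain ⟨R, hR1, hR2⟩ := hφ
    rw [Set.Finite.mem_toFinset] at hR2
    refine ⟨hR2.1, fun T hT => (nr_mono fun v hv => ?_).trans (hRs R hR1)⟩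
    exact (hR2.2 v).2 (hT v hv))
  refine le_trans (le_of_eq ?_) h1
  rw [Finset.card_biUnion]
  · push_cast
    refine Finset.sum_congr rfl fun R _ => ?_
    rw [Set.ncard_eq_toFinset_card _ (hR R)]
  · intro R _ R' _ hne
    refine Finset.disjoint_left.2 fun φ hφ hφ' => hne ?_
    rw [Set.Finite.mem_toFinset] at hφ hφ'
    ext v
    rw [hφ.2 v, hφ'.2 v]

theorem wty (D : RD0 K p ζ) (L : LDs D Ω) (H : Type) [Group H] (θ : ℝ) (hθ : 0 ≤ θ)
    (hRB : RBLt D L H θ) (a r : ℕ) (ha : 0 < a) (har : a < r) (hr : θ < (r : ℝ) / (a : ℝ)) (q : ℝ)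
    (hq : 0 ≤ q) :
    ∃ η : ℝ, 0 < η ∧ Summable fun E : Finset (Pl K) => q ^ E.card * nr E ^ η *
      ∑ A ∈ E.powerset, ((HB D L H A).ncard : ℝ) *
        ((∏ v ∈ A, (nm v : ℝ) ^ (-((r : ℝ) / (a : ℝ)))) *
          ∏ v ∈ E \ A, (nm v : ℝ) ^ (-((co a v : ℝ) / (a : ℝ)))) := by
  have ha1 : (1 : ℝ) ≤ a := by exact_mod_cast ha
  have ha0 : (0 : ℝ) < a := by linarith
  have hnm1 : ∀ v : Pl K, (1 : ℝ) ≤ nm v := fun v => by exact_mod_cast (one_lt_nm v).le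
  have hnm : ∀ v : Pl K, (0 : ℝ) < nm v := fun v => lt_of_lt_of_le one_pos (hnm1 v)
  set η : ℝ := min (1 / (4 * (a : ℝ))) (((r : ℝ) / (a : ℝ) - θ) / 2) with hη
  have hη0 : 0 < η := lt_min (by positivity) (by linarith)
  have hη1 : η ≤ 1 / (4 * (a : ℝ)) := min_le_left _ _
  have hη2 : η ≤ ((r : ℝ) / (a : ℝ) - θ) / 2 := min_le_right _ _
  have hra : 1 + 1 / (a : ℝ) ≤ (r : ℝ) / (a : ℝ) := by
    have h1 : (a : ℝ) + 1 ≤ r := by exact_mod_cast har
    rw [le_div_iff₀ ha0]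
    field_simp
    linarith
  have hqa : 1 / (4 * (a : ℝ)) = 1 / (a : ℝ) / 4 := by
    rw [div_div, mul_comm]
  have hai : 0 < 1 / (a : ℝ) := by positivity
  refine ⟨η, hη0, ?_⟩
  set x : Pl K → ℝ := fun v => q * (nm v : ℝ) ^ (η - (r : ℝ) / (a : ℝ)) with hx
  set y : Pl K → ℝ := fun v => q * (nm v : ℝ) ^ (η - (co a v : ℝ) / (a : ℝ)) with hy
  have hx0 : ∀ v, 0 ≤ x v := fun v => mul_nonneg hq (Real.rpow_nonneg (hnm v).le _)
  have hy0 : ∀ v, 0 ≤ y v := fun v => mul_nonneg hq (Real.rpow_nonneg (hnm v).le _)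
  have hxs : Summable x := by
    have h1 : Summable fun v : Pl K => (nm v : ℝ) ^ (-((r : ℝ) / (a : ℝ) - η)) :=
      pz_summable K (by linarith)
    refine (h1.mul_left q).congr fun v => ?_
    rw [hx]
    dsimp only
    congr 2
    ring
  have hys : Summable y := by
    refine Summable.of_nonneg_of_le hy0 (fun v => ?_) ((usum_one K a ha).mul_left q)
    exact mul_le_mul_of_nonneg_left (Real.rpow_le_rpow_of_exponent_le (hnm1 v) (by linarith)) hq
  set X : Finset (Pl K) → ℝ := fun A => ∏ v ∈ A, x v with hX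
  set Y : Finset (Pl K) → ℝ := fun F => ∏ v ∈ F, y v with hY
  have hX0 : ∀ A, 0 ≤ X A := fun A => Finset.prod_nonneg fun v _ => hx0 v
  have hY0 : ∀ A, 0 ≤ Y A := fun A => Finset.prod_nonneg fun v _ => hy0 v
  -- the terms
  have hterm : ∀ E : Finset (Pl K), q ^ E.card * nr E ^ η *
      ∑ A ∈ E.powerset, ((HB D L H A).ncard : ℝ) *
        ((∏ v ∈ A, (nm v : ℝ) ^ (-((r : ℝ) / (a : ℝ)))) *
          ∏ v ∈ E \ A, (nm v : ℝ) ^ (-((co a v : ℝ) / (a : ℝ)))) =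
      ∑ A ∈ E.powerset, ((HB D L H A).ncard : ℝ) * X A * Y (E \ A) := by
    intro E
    rw [Finset.mul_sum]
    refine Finset.sum_congr rfl fun A hA => ?_
    have hAE' := Finset.mem_powerset.1 hA
    have e1 : q ^ E.card * nr E ^ η = (∏ v ∈ A, q * (nm v : ℝ) ^ η) *
        ∏ v ∈ E \ A, q * (nm v : ℝ) ^ η := by
      rw [mul_comm (∏ v ∈ A, _), Finset.prod_sdiff hAE', nr_rpow, ← Finset.prod_const,
        ← Finset.prod_mul_distrib]
    have e2 : X A = (∏ v ∈ A, q * (nm v : ℝ) ^ η) *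
        ∏ v ∈ A, (nm v : ℝ) ^ (-((r : ℝ) / (a : ℝ))) := by
      rw [← Finset.prod_mul_distrib]
      refine Finset.prod_congr rfl fun v _ => ?_
      rw [mul_assoc, ← Real.rpow_add (hnm v)]
      rfl
    have e3 : Y (E \ A) = (∏ v ∈ E \ A, q * (nm v : ℝ) ^ η) *
        ∏ v ∈ E \ A, (nm v : ℝ) ^ (-((co a v : ℝ) / (a : ℝ))) := by
      rw [← Finset.prod_mul_distrib]
      refine Finset.prod_congr rfl fun v _ => ?_
      rw [mul_assoc, ← Real.rpow_add (hnm v)]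
      rfl
    rw [e1, e2, e3]
    ring
  -- the sum over `R`
  obtain ⟨C₀, hC₀⟩ := dyt θ hθ (fun R => ((HR D L H R).ncard : ℝ)) (fun R => Nat.cast_nonneg _)
    (fun ε hε => hrt_sum D L H θ hRB ε hε) q ((r : ℝ) / (a : ℝ) - θ - η) hq (by linarith)
  have hXR : ∀ R, X R = q ^ R.card * nr R ^ (-θ - ((r : ℝ) / (a : ℝ) - θ - η)) := by
    intro R
    rw [nr_rpow, ← Finset.prod_const, ← Finset.prod_mul_distrib]
    refine Finset.prod_congr rfl fun v _ => ?_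
    rw [hx]
    dsimp only
    congr 2
    ring
  have hC₀' : ∀ Rs : Finset (Finset (Pl K)),
      ∑ R ∈ Rs, ((HR D L H R).ncard : ℝ) * X R ≤ C₀ := by
    intro Rs
    rw [Finset.sum_congr rfl fun R _ => by rw [hXR R]]
    exact hC₀ Rs
  have hC₀0 : 0 ≤ C₀ := by
    have := hC₀' ∅
    rwa [Finset.sum_empty] at this
  -- the sum over `A`
  have hSA : ∀ As : Finset (Finset (Pl K)),
      ∑ A ∈ As, ((HB D L H A).ncard : ℝ) * X A ≤ C₀ * Real.exp (∑' v, x v) := by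
    intro As
    set Bs := (As.biUnion id).powerset with hBs
    calc ∑ A ∈ As, ((HB D L H A).ncard : ℝ) * X A ≤
        ∑ A ∈ As, ∑ R ∈ A.powerset, ((HR D L H R).ncard : ℝ) * X R * X (A \ R) := by
          refine Finset.sum_le_sum fun A _ => ?_
          calc ((HB D L H A).ncard : ℝ) * X A ≤
              (∑ R ∈ A.powerset, ((HR D L H R).ncard : ℝ)) * X A :=
                mul_le_mul_of_nonneg_right (hbt_le D L H θ hRB A) (hX0 A)
            _ = _ := by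
                rw [Finset.sum_mul]
                refine Finset.sum_congr rfl fun R hR => ?_
                have e : X A = X (A \ R) * X R :=
                  (Finset.prod_sdiff (Finset.mem_powerset.1 hR)).symm
                rw [e]
                ring
      _ ≤ ∑ R ∈ Bs, ∑ F ∈ Bs, ((HR D L H R).ncard : ℝ) * X R * X F := by
          refine pairs As Bs Bs (fun A => A.powerset)
            (fun R F => ((HR D L H R).ncard : ℝ) * X R * X F)
            (fun R F => mul_nonneg (mul_nonneg (Nat.cast_nonneg _) (hX0 R)) (hX0 F)) ?_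
          intro A hA R hR
          have h1 := Finset.mem_powerset.1 hR
          have h2 : A ⊆ As.biUnion id := Finset.subset_biUnion_of_mem id hA
          exact ⟨h1, Finset.mem_powerset.2 (h1.trans h2),
            Finset.mem_powerset.2 (Finset.sdiff_subset.trans h2)⟩
      _ = (∑ R ∈ Bs, ((HR D L H R).ncard : ℝ) * X R) * ∑ F ∈ Bs, X F := by
          rw [Finset.sum_mul_sum]
      _ ≤ C₀ * Real.exp (∑' v, x v) :=
          mul_le_mul (hC₀' Bs) (prod_sum x hx0 hxs Bs)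
            (Finset.sum_nonneg fun F _ => hX0 F) hC₀0
  have hnn : ∀ E : Finset (Pl K), 0 ≤ q ^ E.card * nr E ^ η *
      ∑ A ∈ E.powerset, ((HB D L H A).ncard : ℝ) *
        ((∏ v ∈ A, (nm v : ℝ) ^ (-((r : ℝ) / (a : ℝ)))) *
          ∏ v ∈ E \ A, (nm v : ℝ) ^ (-((co a v : ℝ) / (a : ℝ)))) := by
    intro E
    rw [hterm E]
    exact Finset.sum_nonneg fun A _ =>
      mul_nonneg (mul_nonneg (Nat.cast_nonneg _) (hX0 A)) (hY0 _)
  refine summable_of_sum_le hnn (c := C₀ * Real.exp (∑' v, x v) * Real.exp (∑' v, y v))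
    fun Es => ?_
  rw [Finset.sum_congr rfl fun E _ => hterm E]
  set Bs := (Es.biUnion id).powerset with hBs
  calc ∑ E ∈ Es, ∑ A ∈ E.powerset, ((HB D L H A).ncard : ℝ) * X A * Y (E \ A) ≤
      ∑ A ∈ Bs, ∑ F ∈ Bs, ((HB D L H A).ncard : ℝ) * X A * Y F := by
        refine pairs Es Bs Bs (fun E => E.powerset)
          (fun A F => ((HB D L H A).ncard : ℝ) * X A * Y F)
          (fun A F => mul_nonneg (mul_nonneg (Nat.cast_nonneg _) (hX0 A)) (hY0 F)) ?_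
        intro E hE A hA
        have h1 := Finset.mem_powerset.1 hA
        have h2 : E ⊆ Es.biUnion id := Finset.subset_biUnion_of_mem id hE
        exact ⟨h1, Finset.mem_powerset.2 (h1.trans h2),
          Finset.mem_powerset.2 (Finset.sdiff_subset.trans h2)⟩
    _ = (∑ A ∈ Bs, ((HB D L H A).ncard : ℝ) * X A) * ∑ F ∈ Bs, Y F := by
        rw [Finset.sum_mul_sum]
    _ ≤ C₀ * Real.exp (∑' v, x v) * Real.exp (∑' v, y v) :=
        mul_le_mul (hSA Bs) (prod_sum y hy0 hys Bs)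
          (Finset.sum_nonneg fun F _ => hY0 F) (by positivity)

end H86.HT
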