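import Pool.Agent.H86.HT.Def
import Pool.Agent.H63.MC.CLkC

/-!
# H86-HT-GEN: homomorphisms to a `p`-group, unramified outside `S0`, are determined by their restrictions to the decomposition groups at `S0` (MP_b39724_nt, think 1781) [FRAME]

* `gen_one`: `χ : Γ → C_p` of finite type, unramified outside `S0`, trivial on `dec (Q.P v)`, `v ∈ S0`, is trivial. Proof. `χ = kc b`, `b ∈ Kˣ` (`kc_all`). For `v ∉ S0`: `p ∣ ord v b` (`ld_kk_t`: `kk b (t v) = ord v b`).
  So `b = u y^p` with `TUnit S0 u` (`unit_of_ord`, see `hw_fin` in H63/MC/CHa.lean). `u` has a root `β ∈ Ω`, `β^p = u`, which is fixed by `dec (Q.P v)`, `v ∈ S0`; `dens` (used in `lock`, H63/MC/CLkC.lean) gives `x ∈ Kˣ` with `x / β` in `Cl p (P v)`; so `u`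
  is a `p`-th power locally at `v` (`LocP` for `v ∣ p`, `Spl` for `v ∤ p`): `PS p ζ S0 u`, and `D.unit` gives `IsPow p u`.
* `gen`: `u, u' : Γ → R`, `R` a finite `p`-group. If `u ≠ u'` the image `J` of `u × u'` in `R × R` is not contained in the diagonal `Δ`; `J ∩ Δ` is contained in a normal subgroup of index `p` of `J`; apply `gen_one` to the character.
-/

set_option autoImplicit false

open scoped NumberField
open IsDedekindDomain H38.ML
open scoped Classical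

noncomputable section

namespace H86.HT

open H63.MA H38.BB H38.BG H57.PC H57.BRA H63.BU H77.PC3 H57.CC H38.AS H77.S0T H77.FLD H77.PLF H51.PF
  H51.F3

variable {K : Type} [Field K] [NumberField K] {Ω : Type} [Field Ω] [Algebra K Ω]
  [IsAlgClosure K Ω] {p : ℕ} {ζ : K}

theorem gen_one (hp : p.Prime) (hp2 : MOne p K) (hζ : IsPrimitiveRoot ζ p) (D : RD0 K p ζ)
    (L : LDs D Ω) (Q : DP K Ω) (χ : Gal(Ω/K) →* Multiplicative (ZMod p)) (hχ : H38.ML.FT χ)
    (hun : ∀ v, v ∉ D.S0 → ∀ τ ∈ inr L v, χ τ = 1)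
    (h0 : ∀ v ∈ D.S0, ∀ σ ∈ dec (K := K) (Q.P v), χ σ = 1) : χ = 1 := by
  sorry

theorem gen (hp : p.Prime) (hp2 : MOne p K) (hζ : IsPrimitiveRoot ζ p) (D : RD0 K p ζ)
    (L : LDs D Ω) (Q : DP K Ω) {R : Type} [Group R] [Finite R] (hR : IsPGroup p R)
    (u u' : Gal(Ω/K) →* R) (hu : H38.ML.FT u) (hu' : H38.ML.FT u')
    (h1 : ∀ v, v ∉ D.S0 → ∀ τ ∈ inr L v, u τ = 1)
    (h2 : ∀ v, v ∉ D.S0 → ∀ τ ∈ inr L v, u' τ = 1) (h0 : Teq D.S0 Q u u') : u = u' := by
  sorry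

end H86.HT
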