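import Pool.Agent.H86.HT.Def
import Pool.Agent.H48.MF.Ing
import Pool.Agent.H77.PLF.Gx

/-!
# H86-HT-GYL: the lemmas of H77/PLF/Gx.lean and H51/PF/Tyt.lean (`gx_tqt`) for `GY` (MP_b39724_nt, think 1781)
-/

set_option autoImplicit false

open scoped NumberField
open IsDedekindDomain H38.ML
open scoped Classical

noncomputable section

namespace H86.HT

open H63.MA H38.BB H38.BG H57.PC H57.BRA H63.BU H77.PC3 H57.CC H38.AS H77.S0T H77.FLD H77.PLF H51.PF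
  H51.F3

section grp

variable {p N : ℕ} {G P H : Type} [Group G] [Group P] [Group H]

/-- `ker pr` and `ker ph` commute -/
theorem gy_comm (Q : GY p N G P H) (a b : G) (ha : Q.pr a = 1) (hb : Q.ph b = 1) :
    a * b = b * a := by
  refine Q.inj _ _ ?_ ?_
  · rw [map_mul, map_mul, ha, one_mul, mul_one]
  · rw [map_mul, map_mul, hb, one_mul, mul_one]

theorem gy_tsur (Q : GY p N G P H) (t : P) (ht : t ∈ Tc Q.cP) : ∃ g ∈ Q.T, Q.pr g = t := by
  have h1 : Tc Q.cP = (Subgroup.normalClosure (Set.range Q.cl.g)).map Q.pr := by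
    have h2 : (Q.pr ∘ Q.cl.g) = Q.cP.g := funext Q.hcl
    rw [Subgroup.map_normalClosure _ _ Q.prs, ← Set.range_comp, h2]
  have ht' := ht
  rw [h1] at ht'
  obtain ⟨g, hg, rfl⟩ := ht'
  refine ⟨g, ⟨ht, ?_⟩, rfl⟩
  have h2 : Subgroup.normalClosure (Set.range Q.cl.g) ≤ Q.ph.ker :=
    Subgroup.normalClosure_le_normal (by
      rintro _ ⟨i, rfl⟩
      exact Q.hph i)
  exact h2 hg

theorem gy_tmem (Q : GY p N G P H) (g : G) : g ∈ Q.T ↔ Q.pr g ∈ Tc Q.cP ∧ Q.ph g = 1 := Iff.rfl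

/-- a homomorphism with surjective components is surjective -/
theorem gy_srj (Q : GY p N G P H) (hP : IsPGroup p P) {Γ : Type} [Group Γ] (φ : Γ →* G)
    (h1 : Function.Surjective (Q.pr.comp φ)) (h2 : Function.Surjective (Q.ph.comp φ)) :
    Function.Surjective φ := by
  -- elements of the range modulo `ker ph`
  have hdec : ∀ g : G, ∃ j ∈ φ.range, ∃ t : G, Q.ph t = 1 ∧ g = j * t := by
    intro g
    obtain ⟨σ, hσ⟩ := h2 (Q.ph g)
    refine ⟨φ σ, ⟨σ, rfl⟩, (φ σ)⁻¹ * g, ?_, by rw [mul_inv_cancel_left]⟩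
    have h3 : Q.ph (φ σ) = Q.ph g := hσ
    rw [map_mul, map_inv, h3, inv_mul_cancel]
  have hnM : (φ.range ⊓ Q.pr.ker).Normal := by
    refine ⟨fun m hm g => ?_⟩
    obtain ⟨j, hj, t, ht, rfl⟩ := hdec g
    have h3 : m * t = t * m := gy_comm Q m t hm.2 ht
    have h4 : j * t * m * (j * t)⁻¹ = j * m * j⁻¹ := by
      rw [mul_inv_rev]
      calc j * t * m * (t⁻¹ * j⁻¹) = j * (t * m) * t⁻¹ * j⁻¹ := by group
        _ = j * (m * t) * t⁻¹ * j⁻¹ := by rw [h3]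
        _ = _ := by group
    rw [h4]
    exact ⟨φ.range.mul_mem (φ.range.mul_mem hj hm.1) (φ.range.inv_mem hj),
      Q.pr.normal_ker.conj_mem m hm.2 j⟩
  have hker : Q.pr.ker ≤ (φ.range ⊓ Q.pr.ker) ⊔ Q.ph.ker := by
    refine Q.mn _ inferInstance fun g => ?_
    obtain ⟨j, hj, t, ht, rfl⟩ := hdec g
    obtain ⟨k, hk⟩ := hP (Q.pr j)
    refine ⟨k, ?_⟩
    have h3 : (j ^ p ^ k)⁻¹ * (j * t) ^ p ^ k ∈ Q.ph.ker := by
      rw [MonoidHom.mem_ker, map_mul, map_inv, map_pow, map_pow, map_mul, ht, mul_one,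
        inv_mul_cancel]
    have h4 : j ^ p ^ k ∈ φ.range ⊓ Q.pr.ker :=
      ⟨φ.range.pow_mem hj _, by
        show Q.pr (j ^ p ^ k) = 1
        rw [map_pow, hk]⟩
    have h5 : (j * t) ^ p ^ k = j ^ p ^ k * ((j ^ p ^ k)⁻¹ * (j * t) ^ p ^ k) := by
      rw [mul_inv_cancel_left]
    rw [h5]
    exact mul_mem (Subgroup.mem_sup_left h4) (Subgroup.mem_sup_right h3)
  have hle : Q.pr.ker ≤ φ.range := by
    intro x hx
    obtain ⟨m, hm, t, ht, rfl⟩ := Subgroup.mem_sup_of_normal_right.1 (hker hx)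
    have h3 : Q.pr t = 1 := by
      have h4 : Q.pr (m * t) = 1 := hx
      rw [map_mul, hm.2, one_mul] at h4
      exact h4
    have h5 : t = 1 := Q.inj t 1 (h3.trans (map_one _).symm) (ht.trans (map_one _).symm)
    rw [h5, mul_one]
    exact hm.1
  intro g
  obtain ⟨σ, hσ⟩ := h1 (Q.pr g)
  have h3 : (φ σ)⁻¹ * g ∈ Q.pr.ker := by
    have h4 : Q.pr (φ σ) = Q.pr g := hσ
    rw [MonoidHom.mem_ker, map_mul, map_inv, h4, inv_mul_cancel]
  have h4 : φ σ * ((φ σ)⁻¹ * g) ∈ φ.range := φ.range.mul_mem ⟨σ, rfl⟩ (hle h3)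
  rw [mul_inv_cancel_left] at h4
  exact h4

/-- conjugacy in `G` of elements of `ker ph` -/
theorem gy_conj (Q : GY p N G P H) (x y : G) (h : IsConj (Q.pr x) (Q.pr y)) (hx : Q.ph x = 1)
    (hy : Q.ph y = 1) : IsConj x y := by
  obtain ⟨c, hc⟩ := isConj_iff.1 h
  obtain ⟨g, rfl⟩ := Q.prs c
  refine isConj_iff.2 ⟨g, Q.inj _ _ ?_ ?_⟩
  · rw [map_mul, map_mul, map_inv, hc]
  · rw [map_mul, map_mul, map_inv, hx, hy, mul_one, mul_inv_cancel]

end grp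

section loc

variable {K : Type} [Field K] [NumberField K] {Ω : Type} [Field Ω] [Algebra K Ω]
  {p N : ℕ} {ζ : K} {G P H : Type} [Group G] [Group P] [Group H]

theorem gy_un (Q : GY p N G P H) {D : RD0 K p ζ} (L : LDs D Ω)
    (φ : Gal(Ω/K) →* G) (v : Pl K) : (∀ τ ∈ inr L v, φ τ = 1) ↔
      (∀ τ ∈ inr L v, Q.pr (φ τ) = 1) ∧ ∀ τ ∈ inr L v, Q.ph (φ τ) = 1 := by
  constructor
  · intro h
    exact ⟨fun τ hτ => by rw [h τ hτ, map_one], fun τ hτ => by rw [h τ hτ, map_one]⟩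
  · rintro ⟨h1, h2⟩ τ hτ
    exact Q.inj _ _ (by rw [h1 τ hτ, map_one]) (by rw [h2 τ hτ, map_one])

theorem gy_teq (Q : GY p N G P H) (S : Finset (Pl K)) (Q' : DP K Ω)
    (φ φ' : Gal(Ω/K) →* G) : Teq S Q' φ φ' ↔
      Teq S Q' (Q.pr.comp φ) (Q.pr.comp φ') ∧ Teq S Q' (Q.ph.comp φ) (Q.ph.comp φ') := by
  constructor
  · intro h
    exact ⟨fun v hv σ hσ => congrArg Q.pr (h v hv σ hσ),
      fun v hv σ hσ => congrArg Q.ph (h v hv σ hσ)⟩
  · rintro ⟨h1, h2⟩ v hv σ hσ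
    exact Q.inj _ _ (h1 v hv σ hσ) (h2 v hv σ hσ)

theorem gy_tqt (Q : GY p N G P H) (S : Finset (Pl K)) (Q' : DP K Ω)
    (φ φ' : Gal(Ω/K) →* G) : TqT S Q' Q.T φ φ' ↔
      TqT S Q' (Tc Q.cP) (Q.pr.comp φ) (Q.pr.comp φ') ∧
        Teq S Q' (Q.ph.comp φ) (Q.ph.comp φ') := by
  constructor
  · intro h
    refine ⟨fun v hv => ?_, fun v hv σ hσ => ?_⟩
    · obtain ⟨g, hg, h1⟩ := h v hv
      refine ⟨Q.pr g, hg.1, fun σ hσ => ?_⟩
      rw [MonoidHom.comp_apply, h1 σ hσ, map_mul, map_mul, map_inv, MonoidHom.comp_apply]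
    · obtain ⟨g, hg, h1⟩ := h v hv
      have h2 : Q.ph g = 1 := hg.2
      rw [MonoidHom.comp_apply, h1 σ hσ, map_mul, map_mul, map_inv, h2, MonoidHom.comp_apply,
        one_mul, inv_one, mul_one]
  · rintro ⟨h1, h2⟩ v hv
    obtain ⟨t, ht, h3⟩ := h1 v hv
    obtain ⟨g, hg, hgt⟩ := gy_tsur Q t ht
    have hg2 : Q.ph g = 1 := hg.2
    refine ⟨g, hg, fun σ hσ => Q.inj _ _ ?_ ?_⟩
    · rw [map_mul, map_mul, map_inv, hgt]
      exact h3 σ hσ
    · rw [map_mul, map_mul, map_inv, hg2, one_mul, inv_one, mul_one]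
      exact h2 v hv σ hσ

omit [NumberField K] in
/-- the homomorphism with given components -/
theorem gy_pair (Q : GY p N G P H) (α : Gal(Ω/K) →* P) (β : Gal(Ω/K) →* H)
    (hα : H38.ML.FT α) (hβ : H38.ML.FT β)
    (hc : ∀ σ, ∃ g : G, Q.pr g = α σ ∧ Q.ph g = β σ) :
    ∃ φ : Gal(Ω/K) →* G, H38.ML.FT φ ∧ Q.pr.comp φ = α ∧ Q.ph.comp φ = β := by
  choose f hf1 hf2 using hc
  obtain ⟨φ, hφ⟩ : ∃ φ : Gal(Ω/K) →* G, ∀ σ, φ σ = f σ := by
    refine ⟨MonoidHom.mk' f fun σ τ => Q.inj _ _ ?_ ?_, fun σ => rfl⟩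
    · rw [map_mul, hf1, hf1, hf1, map_mul]
    · rw [map_mul, hf2, hf2, hf2, map_mul]
  refine ⟨φ, ?_, MonoidHom.ext fun σ => ?_, MonoidHom.ext fun σ => ?_⟩
  · obtain ⟨E, hE, hle⟩ := hα
    obtain ⟨E', hE', hle'⟩ := hβ
    refine ⟨E ⊔ E', inferInstance, fun u hu => ?_⟩
    have e1 : u ∈ E.fixingSubgroup := IntermediateField.fixingSubgroup_antitone le_sup_left hu
    have e2 : u ∈ E'.fixingSubgroup :=
      IntermediateField.fixingSubgroup_antitone le_sup_right hu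
    have e3 : α u = 1 := hle e1
    have e4 : β u = 1 := hle' e2
    rw [MonoidHom.mem_ker, hφ]
    exact Q.inj _ _ (by rw [hf1, e3, map_one]) (by rw [hf2, e4, map_one])
  · rw [MonoidHom.comp_apply, hφ, hf1]
  · rw [MonoidHom.comp_apply, hφ, hf2]

/-- `v` is of type `i` for `φ` if and only if it is for the component in `P` and the component in `H` is unramified -/
theorem gy_ty [IsAlgClosure K Ω] [Finite G] (hp : p.Prime) (hζ : IsPrimitiveRoot ζ p)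
    (Q : GY p N G P H) {D : RD0 K p ζ}
    (L : LDs D Ω) (φ : Gal(Ω/K) →* G) (hφ : H38.ML.FT φ) (i : Fin N) (v : Pl K) :
    TyC Q.cl L φ i v ↔ TyC (Q.cP) L (Q.pr.comp φ) i v ∧ ∀ τ ∈ inr L v, Q.ph (φ τ) = 1 := by
  constructor
  · rintro ⟨h1, h2, h3⟩
    refine ⟨⟨h1, ?_, fun τ hτ => ?_⟩, fun τ hτ => ?_⟩
    · have h4 := Q.pr.map_isConj h2
      rw [Q.hcl] at h4
      exact h4
    · rw [MonoidHom.comp_apply, ← map_pow, h3 τ hτ, map_one]
    · have h4 := (H48.MF.ing_inr hp hζ L h1.1 φ hφ fun τ hτ => ⟨1, by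
        rw [pow_one]; exact h3 τ hτ⟩).1 τ hτ
      obtain ⟨k, hk⟩ := Subgroup.mem_zpowers_iff.1 h4
      obtain ⟨c, hc⟩ := isConj_iff.1 h2
      have h5 : Q.ph (φ (L.t v)) = 1 := by
        have h6 := congrArg Q.ph hc
        rw [map_mul, map_mul, map_inv, Q.hph] at h6
        have h7 : Q.ph (φ (L.t v)) = (Q.ph c)⁻¹ * 1 * Q.ph c := by
          rw [← h6]
          group
        rw [h7]
        group
      rw [← hk, map_zpow, h5, one_zpow]
  · rintro ⟨⟨h1, h2, h3⟩, h4⟩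
    refine ⟨h1, ?_, fun τ hτ => ?_⟩
    · refine gy_conj Q _ _ ?_ (h4 _ (uinr_t L v)) (Q.hph i)
      rw [Q.hcl]
      exact h2
    · refine Q.inj _ _ ?_ ?_
      · have h5 := h3 τ hτ
        rw [MonoidHom.comp_apply, ← map_pow] at h5
        rw [h5, map_one]
      · rw [map_pow, h4 τ hτ, one_pow, map_one]

end loc

end H86.HT
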